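import Pool.Agent.B4.Main

/-!
# The value at `A = 1`
-/

namespace Pool.Agent.B4

open Matrix Pool.Agent.Per LaurentPolynomial Pool.Agent.Helper1.PK

variable {N : ℕ}

/-- Evaluation at `A = 1`. -/
noncomputable def ev1 : ℤ[T;T⁻¹] →+* ℂ := LaurentPolynomial.eval₂ (Int.castRingHom ℂ) 1

theorem ev1_T (k : ℤ) : ev1 (T k) = 1 := by
  unfold ev1
  rw [LaurentPolynomial.eval₂_T, _root_.one_zpow]
  rfl

theorem ev1_unit : unitA ev1 = 1 := unitA_eval 1

theorem ev1_bracket [NeZero N] {w : ZMod N → Letter 3} (hK : IsKnot w) {o : Pt N 3 → ℤˣ}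
    (ho : IsOrientation w o) : ev1 (bracket w) = 1 ∨ ev1 (bracket w) = -1 := by
  classical
  have h1 := congrArg ev1 (annular_eval w)
  rw [annular_eq, Polynomial.eval_finsetSum, map_sum, map_mul] at h1
  have h2 : ev1 (-T 2 - T (-2)) = -2 := by
    rw [map_sub, map_neg, ev1_T, ev1_T]
    norm_num
  obtain ⟨ε, h3⟩ := sum_valid (R := ℂ) 1 hK ho
  have h4 : ∀ c : ZMod N → Join, ev1 ((if Valid w c then
      Polynomial.C (T (expo w c) * (-T 2 - T (-2)) ^ ines w c) * Polynomial.X ^ ess w c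
    else 0 : Polynomial ℤ[T;T⁻¹]).eval (-T 2 - T (-2))) =
      (if Valid w c then (-2 : ℂ) ^ ines w c *
        (-(((1 : ℂˣ) : ℂ) + (((1 : ℂˣ)⁻¹ : ℂˣ) : ℂ))) ^ ess w c else 0) := by
    intro c
    split_ifs
    · rw [Polynomial.eval_mul, Polynomial.eval_C, Polynomial.eval_pow, Polynomial.eval_X, map_mul,
        map_mul, map_pow, map_pow, ev1_T, h2]
      norm_num
    · rw [Polynomial.eval_zero, map_zero]
  rw [Finset.sum_congr rfl fun c _ => h4 c, h3, h2] at h1
  simp only [_root_.one_zpow, Units.val_one] at h1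
  rcases Int.units_eq_one_or ε with rfl | rfl
  · right
    push_cast at h1
    linear_combination (1 / 2 : ℂ) * h1
  · left
    push_cast at h1
    linear_combination (1 / 2 : ℂ) * h1

theorem real_word2 [NeZero N] {w : ZMod N → Letter 3} (hw : ∀ t, (w t).kind ≠ .turn) :
    ∃ M : Matrix (Fin 2) (Fin 2) ℤ, word ev1 (FF (-2)) w = M.map (Int.castRingHom ℂ) := by
  unfold word
  induction List.range N with
  | nil => exact ⟨1, by rw [List.map_nil, List.prod_nil]; exact (Matrix.map_one _ (by simp) (by simp)).symm⟩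
  | cons i L ih =>
    obtain ⟨M, hM⟩ := ih
    rw [List.map_cons, List.prod_cons, hM]
    have h1 : ∃ M' : Matrix (Fin 2) (Fin 2) ℤ, lett ev1 (FF (-2)) (w (i : ZMod N)) =
        M'.map (Int.castRingHom ℂ) := by
      rw [lett_eq ev1 _ (hw _), ev1_unit]
      generalize (w (i : ZMod N)).place = a
      fin_cases a
      · refine ⟨!![-1, 1; 0, 1], ?_⟩
        ext p q
        fin_cases p <;> fin_cases q <;> simp [FF] <;> norm_num
      · refine ⟨!![1, 0; 1, -1], ?_⟩
        ext p q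
        fin_cases p <;> fin_cases q <;> simp [FF] <;> norm_num
      · refine ⟨!![-1, 1; 0, 1], ?_⟩
        ext p q
        fin_cases p <;> fin_cases q <;> simp [FF] <;> norm_num
    obtain ⟨M', hM'⟩ := h1
    exact ⟨M' * M, by rw [hM', Matrix.map_mul]⟩

theorem real_word3 [NeZero N] {w : ZMod N → Letter 3} (hw : ∀ t, (w t).kind ≠ .turn) :
    ∃ M : Matrix (Fin 3) (Fin 3) ℤ, word ev1 (EE (-2)) w = M.map (Int.castRingHom ℂ) := by
  unfold word
  induction List.range N with
  | nil => exact ⟨1, by rw [List.map_nil, List.prod_nil]; exact (Matrix.map_one _ (by simp) (by simp)).symm⟩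
  | cons i L ih =>
    obtain ⟨M, hM⟩ := ih
    rw [List.map_cons, List.prod_cons, hM]
    have h1 : ∃ M' : Matrix (Fin 3) (Fin 3) ℤ, lett ev1 (EE (-2)) (w (i : ZMod N)) =
        M'.map (Int.castRingHom ℂ) := by
      rw [lett_eq ev1 _ (hw _), ev1_unit]
      generalize (w (i : ZMod N)).place = a
      fin_cases a
      · refine ⟨!![-1, 1, 0; 0, 1, 0; 0, 0, 1], ?_⟩
        ext p q
        fin_cases p <;> fin_cases q <;> simp [EE] <;> norm_num
      · refine ⟨!![1, 0, 0; 1, -1, 1; 0, 0, 1], ?_⟩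
        ext p q
        fin_cases p <;> fin_cases q <;> simp [EE] <;> norm_num
      · refine ⟨!![1, 0, 0; 0, 1, 0; 0, 1, -1], ?_⟩
        ext p q
        fin_cases p <;> fin_cases q <;> simp [EE] <;> norm_num
    obtain ⟨M', hM'⟩ := h1
    exact ⟨M' * M, by rw [hM', Matrix.map_mul]⟩

theorem trace_map_int {m : ℕ} (M : Matrix (Fin m) (Fin m) ℤ) :
    (M.map (Int.castRingHom ℂ)).trace = ((M.trace : ℤ) : ℂ) := by
  unfold Matrix.trace
  push_cast
  rfl

/-- The normalized bracket of a closed braid on four strands which is a knot is one at `A = 1`. -/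
theorem ev1_normalized [NeZero N] {w : ZMod N → Letter 3} (hw : ∀ t, (w t).kind ≠ .turn)
    (hK : IsKnot w) {o : Pt N 3 → ℤˣ} (ho : IsOrientation w o) : ev1 (normalized w o) = 1 := by
  have hN := odd_letters hw hK
  obtain ⟨k, hk⟩ := expsum_parity hw
  have hodd : Odd (expsum w) := by
    obtain ⟨j, hj⟩ := hN
    exact ⟨j + k, by rw [hk, hj]; push_cast; ring⟩
  have hwr := writhe_knot hw hK ho
  have hpar : (-1 : ℂ) ^ N = -1 := hN.neg_one_pow
  rw [eval_normalized ev1 w o (by rw [hwr]; exact hodd), ev1_unit]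
  have hA : (starRingEnd ℂ) (unitA ev1 : ℂ) * (unitA ev1 : ℂ) = 1 := by
    rw [ev1_unit]
    simp
  have hd : loopv (unitA ev1) = -((2 : ℝ) : ℂ) := by
    rw [loopv_eq, ev1_unit]
    norm_num
  have hd2 : -((2 : ℝ) : ℂ) = -2 := by norm_num
  have ht := bracket_trace ev1 w
  have hz := word_zero ev1 hw
  rw [ev1_unit, _root_.one_zpow, Units.val_one] at hz
  have hi2 := word_isom2 ev1 hw hA
  have hdet2 := word_det2 ev1 hw
  have hi3 := word_isom3 ev1 hw hA
  have hdet3 := word_det3 ev1 hw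
  rw [hz, hpar] at hdet2 hdet3
  rw [hz] at ht
  rw [hd] at ht hi2 hdet2 hi3 hdet3
  obtain ⟨M2, hM2⟩ := real_word2 hw
  obtain ⟨M3, hM3⟩ := real_word3 hw
  obtain ⟨y, hy, hY⟩ := two_roots (ρ := Complex.I) (G2_pos (by norm_num)) hi2
    (by rw [hdet2]; simp) (by simp)
  have hD := three_roots (G3_pos (by norm_num)) hi3
  rw [hdet3] at hD
  rw [hd2] at hY hD ht
  rw [hM2, trace_map_int] at hY ht
  rw [hM3, trace_map_int] at hD ht
  have hy0 : (M2.trace : ℂ) = 0 := by
    have h1 := congrArg Complex.re hY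
    simp at h1
    exact_mod_cast congrArg (fun z : ℤ => (z : ℂ)) h1
  rw [hy0] at ht
  set x : ℤ := M3.trace with hx
  have hx1 : ((x : ℝ) - 1) * ((x : ℝ) + 3) ^ 3 ≤ 0 := by
    have e1 : Complex.normSq (x : ℂ) = (x : ℝ) ^ 2 := by
      rw [Complex.normSq_intCast]
      ring
    have e2 : ((x : ℂ) ^ 3 * (starRingEnd ℂ) (-1 * (1 : ℂ)⁻¹)).re = -(x : ℝ) ^ 3 := by
      rw [inv_one, mul_one, map_neg, map_one]
      have : (x : ℂ) ^ 3 * -1 = ((-(x : ℝ) ^ 3 : ℝ) : ℂ) := by
        push_cast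
        ring
      rw [this, Complex.ofReal_re]
    rw [e1, e2] at hD
    nlinarith
  have hx2 : (x - 1) * (x + 3) ^ 3 ≤ 0 := by exact_mod_cast hx1
  have hx3 : x ≤ 1 := by
    by_contra hc
    push Not at hc
    have : 0 < (x - 1) * (x + 3) ^ 3 := by
      apply mul_pos (by linarith)
      apply pow_pos
      linarith
    linarith
  have hx4 : -3 ≤ x := by
    by_contra hc
    push Not at hc
    have h1 : 0 < -(x + 3) := by linarith
    have h2 : 0 < (-(x - 1)) * (-(x + 3)) ^ 3 := by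
      apply mul_pos (by linarith)
      exact pow_pos h1 3
    nlinarith
  have ht' : -2 * ev1 (bracket w) = 5 + 3 * (x : ℂ) := by
    linear_combination ht
  have hB : ev1 (bracket w) = -1 := by
    rcases ev1_bracket hK ho with h | h
    · exfalso
      rw [h] at ht'
      have h5 : (5 + 3 * x : ℤ) = -2 := by
        have : ((5 + 3 * x : ℤ) : ℂ) = ((-2 : ℤ) : ℂ) := by
          push_cast
          rw [← ht']
          norm_num
        exact_mod_cast this
      omega
    · exact h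
  rw [hB]
  simp

end Pool.Agent.B4
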