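import Pool.Agent.B4.Vertex

/-!
# The decomposition of the vertex model on four strands
-/

namespace Pool.Agent.B4

open Matrix Pool.Agent.Per LaurentPolynomial Pool.Agent.Helper1.PK

set_option linter.unusedSimpArgs false

theorem tr_EE (d : ℂ) (i : Fin 14) :
    Matrix.trace (wd (EE d 0) (EE d 1) (EE d 2) i) =
      (![3, d, d, d, 1, 1, 1, 1, 0, 0, 0, 0, 0, 0] : Fin 14 → ℂ) i := by
  match i with
  | 0 => simp [wd, Matrix.trace, EE, Matrix.mul_apply, Fin.sum_univ_three]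
  | 1 => simp [wd, Matrix.trace, EE, Matrix.mul_apply, Fin.sum_univ_three]
  | 2 => simp [wd, Matrix.trace, EE, Matrix.mul_apply, Fin.sum_univ_three]
  | 3 => simp [wd, Matrix.trace, EE, Matrix.mul_apply, Fin.sum_univ_three]
  | 4 => simp [wd, Matrix.trace, EE, Matrix.mul_apply, Fin.sum_univ_three]
  | 5 => simp [wd, Matrix.trace, EE, Matrix.mul_apply, Fin.sum_univ_three]
  | 6 => simp [wd, Matrix.trace, EE, Matrix.mul_apply, Fin.sum_univ_three]
  | 7 => simp [wd, Matrix.trace, EE, Matrix.mul_apply, Fin.sum_univ_three]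
  | 8 => simp [wd, Matrix.trace, EE, Matrix.mul_apply, Fin.sum_univ_three]
  | 9 => simp [wd, Matrix.trace, EE, Matrix.mul_apply, Fin.sum_univ_three]
  | 10 => simp [wd, Matrix.trace, EE, Matrix.mul_apply, Fin.sum_univ_three]
  | 11 => simp [wd, Matrix.trace, EE, Matrix.mul_apply, Fin.sum_univ_three]
  | 12 => simp [wd, Matrix.trace, EE, Matrix.mul_apply, Fin.sum_univ_three]
  | 13 => simp [wd, Matrix.trace, EE, Matrix.mul_apply, Fin.sum_univ_three]

theorem tr_FF (d : ℂ) (i : Fin 14) :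
    Matrix.trace (wd (FF d 0) (FF d 1) (FF d 2) i) =
      (![2, d, d, d, 1, 1, 1, 1, d ^ 2, d, d, d, d, d ^ 2] : Fin 14 → ℂ) i := by
  match i with
  | 0 => simp [wd, Matrix.trace, FF, Matrix.mul_apply, Fin.sum_univ_two]
  | 1 => simp [wd, Matrix.trace, FF, Matrix.mul_apply, Fin.sum_univ_two]
  | 2 => simp [wd, Matrix.trace, FF, Matrix.mul_apply, Fin.sum_univ_two]
  | 3 => simp [wd, Matrix.trace, FF, Matrix.mul_apply, Fin.sum_univ_two]
  | 4 => simp [wd, Matrix.trace, FF, Matrix.mul_apply, Fin.sum_univ_two]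
  | 5 => simp [wd, Matrix.trace, FF, Matrix.mul_apply, Fin.sum_univ_two]
  | 6 => simp [wd, Matrix.trace, FF, Matrix.mul_apply, Fin.sum_univ_two]
  | 7 => simp [wd, Matrix.trace, FF, Matrix.mul_apply, Fin.sum_univ_two]
  | 8 => simp [wd, Matrix.trace, FF, Matrix.mul_apply, Fin.sum_univ_two]; ring
  | 9 => simp [wd, Matrix.trace, FF, Matrix.mul_apply, Fin.sum_univ_two]
  | 10 => simp [wd, Matrix.trace, FF, Matrix.mul_apply, Fin.sum_univ_two]
  | 11 => simp [wd, Matrix.trace, FF, Matrix.mul_apply, Fin.sum_univ_two]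
  | 12 => simp [wd, Matrix.trace, FF, Matrix.mul_apply, Fin.sum_univ_two]
  | 13 => simp [wd, Matrix.trace, FF, Matrix.mul_apply, Fin.sum_univ_two]; ring

theorem wd_zero (i : Fin 14) : wd (0 : ℂ) 0 0 i =
    (![1, 0, 0, 0, 0, 0, 0, 0, 0, 0, 0, 0, 0, 0] : Fin 14 → ℂ) i := by
  unfold wd
  simp only [mul_zero]

theorem tab_eq (d : ℂ) (i : Fin 14) :
    tab d i = (d ^ 4 - 3 * d ^ 2 + 1) * wd (0 : ℂ) 0 0 i +
      (d ^ 2 - 1) * Matrix.trace (wd (EE d 0) (EE d 1) (EE d 2) i) +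
      Matrix.trace (wd (FF d 0) (FF d 1) (FF d 2) i) := by
  rw [tr_EE, tr_FF, wd_zero]
  match i with
  | 0 => simp [tab]; ring
  | 1 => simp [tab]; ring
  | 2 => simp [tab]; ring
  | 3 => simp [tab]; ring
  | 4 => simp [tab]
  | 5 => simp [tab]
  | 6 => simp [tab]
  | 7 => simp [tab]
  | 8 => simp [tab]
  | 9 => simp [tab]
  | 10 => simp [tab]
  | 11 => simp [tab]
  | 12 => simp [tab]
  | 13 => simp [tab]

/-- The product of the four representations. -/
abbrev RR : Type := Matrix (Spin 3) (Spin 3) ℂ × Matrix (Fin 3) (Fin 3) ℂ ×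
  Matrix (Fin 2) (Fin 2) ℂ × ℂ

/-- The turnbacks in the product. -/
def ee (A : ℂˣ) (i : Fin 3) : RR := (turnM A i, EE (loopv A) i, FF (loopv A) i, 0)

theorem turn_rel (A : ℂˣ) : TLRel (loopv A) (turnM A (0 : Fin 3)) (turnM A 1) (turnM A 2) := by
  obtain ⟨h1, h2, h3, h4⟩ := tl ℂ A 3
  constructor
  · exact h1 0
  · exact h1 1
  · exact h1 2
  · exact h3 0 1 rfl
  · exact h4 0 1 rfl
  · exact h3 1 2 rfl
  · exact h4 1 2 rfl
  · exact (h2 0 2 (by decide)).symm

theorem ee_rel (A : ℂˣ) : TLRel (loopv A) (ee A 0) (ee A 1) (ee A 2) := by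
  have h1 := turn_rel A
  have h2 := EE_rel (loopv A)
  have h3 := FF_rel (loopv A)
  constructor
  · exact Prod.ext h1.xx (Prod.ext h2.xx (Prod.ext h3.xx (by simp [ee])))
  · exact Prod.ext h1.yy (Prod.ext h2.yy (Prod.ext h3.yy (by simp [ee])))
  · exact Prod.ext h1.zz (Prod.ext h2.zz (Prod.ext h3.zz (by simp [ee])))
  · exact Prod.ext h1.xyx (Prod.ext h2.xyx (Prod.ext h3.xyx (by simp [ee])))
  · exact Prod.ext h1.yxy (Prod.ext h2.yxy (Prod.ext h3.yxy (by simp [ee])))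
  · exact Prod.ext h1.yzy (Prod.ext h2.yzy (Prod.ext h3.yzy (by simp [ee])))
  · exact Prod.ext h1.zyz (Prod.ext h2.zyz (Prod.ext h3.zyz (by simp [ee])))
  · exact Prod.ext h1.zx (Prod.ext h2.zx (Prod.ext h3.zx (by simp [ee])))

theorem wd_proj (A : ℂˣ) (i : Fin 14) : wd (ee A 0) (ee A 1) (ee A 2) i =
    (wd (turnM A 0) (turnM A 1) (turnM A 2) i,
      wd (EE (loopv A) 0) (EE (loopv A) 1) (EE (loopv A) 2) i,
      wd (FF (loopv A) 0) (FF (loopv A) 1) (FF (loopv A) 2) i, wd (0 : ℂ) 0 0 i) := by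
  match i with
  | 0 => rfl
  | 1 => rfl
  | 2 => rfl
  | 3 => rfl
  | 4 => rfl
  | 5 => rfl
  | 6 => rfl
  | 7 => rfl
  | 8 => rfl
  | 9 => rfl
  | 10 => rfl
  | 11 => rfl
  | 12 => rfl
  | 13 => rfl

/-- The trace of the vertex model on the span of the words. -/
theorem span_trace (A : ℂˣ) {s : RR}
    (hs : s ∈ Submodule.span ℂ (Set.range (wd (ee A 0) (ee A 1) (ee A 2)))) :
    Matrix.trace (twist (-A ^ 2) 3 * s.1) =
      (loopv A ^ 4 - 3 * loopv A ^ 2 + 1) * s.2.2.2 + (loopv A ^ 2 - 1) * Matrix.trace s.2.1 +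
        Matrix.trace s.2.2.1 := by
  induction hs using Submodule.span_induction with
  | mem t ht =>
    obtain ⟨i, rfl⟩ := ht
    rw [wd_proj, tw_wd, tab_eq]
  | zero =>
    show Matrix.trace (twist (-A ^ 2) 3 * (0 : Matrix (Spin 3) (Spin 3) ℂ)) =
      (loopv A ^ 4 - 3 * loopv A ^ 2 + 1) * 0 +
        (loopv A ^ 2 - 1) * Matrix.trace (0 : Matrix (Fin 3) (Fin 3) ℂ) +
        Matrix.trace (0 : Matrix (Fin 2) (Fin 2) ℂ)
    rw [mul_zero, Matrix.trace_zero, Matrix.trace_zero, Matrix.trace_zero]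
    ring
  | add a b _ _ ha hb =>
    show Matrix.trace (twist (-A ^ 2) 3 * (a.1 + b.1)) =
      (loopv A ^ 4 - 3 * loopv A ^ 2 + 1) * (a.2.2.2 + b.2.2.2) +
        (loopv A ^ 2 - 1) * Matrix.trace (a.2.1 + b.2.1) + Matrix.trace (a.2.2.1 + b.2.2.1)
    rw [mul_add, Matrix.trace_add, Matrix.trace_add, Matrix.trace_add, ha, hb]
    ring
  | smul c a _ ha =>
    show Matrix.trace (twist (-A ^ 2) 3 * (c • a.1)) =
      (loopv A ^ 4 - 3 * loopv A ^ 2 + 1) * (c * a.2.2.2) +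
        (loopv A ^ 2 - 1) * Matrix.trace (c • a.2.1) + Matrix.trace (c • a.2.2.1)
    rw [mul_smul_comm, Matrix.trace_smul, Matrix.trace_smul, Matrix.trace_smul, ha]
    simp only [smul_eq_mul]
    ring

variable {N : ℕ}

/-- A letter in a representation in which the turnbacks are `e`. -/
noncomputable def lett {S : Type*} [Ring S] [Algebra ℂ S] (φ : ℤ[T;T⁻¹] →+* ℂ) (e : Fin 3 → S)
    (l : Letter 3) : S :=
  φ (weight l.kind .straight) • (1 : S) + φ (weight l.kind .turn) • e l.place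

/-- A word in a representation in which the turnbacks are `e`. -/
noncomputable def word {S : Type*} [Ring S] [Algebra ℂ S] (φ : ℤ[T;T⁻¹] →+* ℂ) (e : Fin 3 → S)
    (w : ZMod N → Letter 3) : S :=
  ((List.range N).map fun i : ℕ => lett φ e (w (i : ZMod N))).prod

theorem letterM_eq (φ : ℤ[T;T⁻¹] →+* ℂ) (l : Letter 3) :
    letterM φ l = lett φ (turnM (unitA φ)) l := by
  have hu : (Finset.univ : Finset Join) = {.straight, .swap, .turn} := rfl
  unfold letterM lett
  rw [hu, Finset.sum_insert (by decide), Finset.sum_insert (by decide), Finset.sum_singleton]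
  show φ (weight l.kind .straight) • (1 : Matrix (Spin 3) (Spin 3) ℂ) +
    (φ (weight l.kind .swap) • (0 : Matrix (Spin 3) (Spin 3) ℂ) +
      φ (weight l.kind .turn) • turnM (unitA φ) l.place) = _
  rw [smul_zero, zero_add]

theorem wordM_eq (φ : ℤ[T;T⁻¹] →+* ℂ) (w : ZMod N → Letter 3) :
    wordM φ w = word φ (turnM (unitA φ)) w := by
  unfold wordM word
  congr 1
  apply List.map_congr_left
  intro i _
  exact letterM_eq φ _

theorem word_proj (φ : ℤ[T;T⁻¹] →+* ℂ) (w : ZMod N → Letter 3) :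
    word φ (ee (unitA φ)) w = (word φ (turnM (unitA φ)) w, word φ (EE (loopv (unitA φ))) w,
      word φ (FF (loopv (unitA φ))) w, word φ (fun _ => (0 : ℂ)) w) := by
  unfold word
  induction List.range N with
  | nil => rfl
  | cons a l ih =>
    simp only [List.map_cons, List.prod_cons]
    rw [ih]
    rfl

theorem word_trace (φ : ℤ[T;T⁻¹] →+* ℂ) (w : ZMod N → Letter 3) :
    Matrix.trace (twist (-(unitA φ) ^ 2) 3 * wordM φ w) =
      (loopv (unitA φ) ^ 4 - 3 * loopv (unitA φ) ^ 2 + 1) * word φ (fun _ => (0 : ℂ)) w +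
        (loopv (unitA φ) ^ 2 - 1) * Matrix.trace (word φ (EE (loopv (unitA φ))) w) +
        Matrix.trace (word φ (FF (loopv (unitA φ))) w) := by
  have h1 : word φ (ee (unitA φ)) w ∈
      Submodule.span ℂ (Set.range (wd (ee (unitA φ) 0) (ee (unitA φ) 1) (ee (unitA φ) 2))) := by
    unfold word
    apply list_mem (ee_rel (unitA φ))
    intro g hg
    obtain ⟨i, _, rfl⟩ := List.mem_map.mp hg
    refine ⟨_, _, ee (unitA φ) (w (i : ZMod N)).place, ?_, rfl⟩
    generalize (w (i : ZMod N)).place = a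
    fin_cases a
    · exact Or.inl rfl
    · exact Or.inr (Or.inl rfl)
    · exact Or.inr (Or.inr rfl)
  have h2 := span_trace (unitA φ) h1
  rw [word_proj] at h2
  rw [wordM_eq]
  exact h2

end Pool.Agent.B4
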