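import Pool.Agent.B4.Ineq
import Pool.Agent.B4.Decomp

/-!
# No matrices with the required traces
-/

namespace Pool.Agent.B4

open Matrix

theorem norm_form {a b y r : ℝ} (hr : r ^ 2 = 3) :
    (a + b / 2 - r / 2 * y) ^ 2 + (-(r / 2) * b + y / 2) ^ 2 =
      (a ^ 2 + b ^ 2 + y ^ 2 + a * b) - r * (y * (a + b)) := by
  linear_combination (y ^ 2 / 4 + b ^ 2 / 4) * hr

theorem cube_form {a b y r : ℝ} (hr : r ^ 2 = 3) :
    ((a + b / 2 - r / 2 * y) ^ 3 - 3 * (a + b / 2 - r / 2 * y) * (-(r / 2) * b + y / 2) ^ 2) / 2 +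
      r / 2 * (3 * (a + b / 2 - r / 2 * y) ^ 2 * (-(r / 2) * b + y / 2) -
        (-(r / 2) * b + y / 2) ^ 3) =
      (a ^ 3 / 2 - 3 / 2 * a ^ 2 * b - 3 * a * b ^ 2 - 3 / 2 * a * y ^ 2 - b ^ 3 / 2 -
        3 * b * y ^ 2) + (3 * a * b * y + 3 / 2 * b ^ 2 * y + y ^ 3 / 2) * r := by
  linear_combination ((-3 / 4) * a ^ 2 * b + (-9 / 8) * a * b ^ 2 + (3 / 4) * a * b * y * r +
    (-3 / 8) * a * y ^ 2 + (1 / 16) * b ^ 3 * r ^ 2 + (-3 / 16) * b ^ 3 +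
    (3 / 8) * b ^ 2 * y * r + (-3 / 16) * b * y ^ 2 * r ^ 2 + (-15 / 16) * b * y ^ 2 +
    (1 / 8) * y ^ 3 * r) * hr

theorem disc_form {a b n y r : ℝ} (hr : r ^ 2 = 3) (hb : b = a ^ 4 - 3 * a ^ 2 + 1)
    (hn : n = a ^ 2 - 1) :
    ((a + b / 2 - r / 2 * y) ^ 2 + (-(r / 2) * b + y / 2) ^ 2) ^ 2 -
      8 * n * (((a + b / 2 - r / 2 * y) ^ 3 -
        3 * (a + b / 2 - r / 2 * y) * (-(r / 2) * b + y / 2) ^ 2) / 2 +
      r / 2 * (3 * (a + b / 2 - r / 2 * y) ^ 2 * (-(r / 2) * b + y / 2) -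
        (-(r / 2) * b + y / 2) ^ 3)) +
      18 * n ^ 2 * ((a + b / 2 - r / 2 * y) ^ 2 + (-(r / 2) * b + y / 2) ^ 2) - 27 * n ^ 4 =
      P0 a y + P1 a y * r := by
  rw [norm_form hr, cube_form hr]
  subst hn
  have h1 : P0 a y + P1 a y * r = ((a ^ 2 + b ^ 2 + y ^ 2 + a * b) ^ 2 +
      3 * (y * (a + b)) ^ 2 - 2 * r * ((a ^ 2 + b ^ 2 + y ^ 2 + a * b) * (y * (a + b)))) -
      8 * (a ^ 2 - 1) * ((a ^ 3 / 2 - 3 / 2 * a ^ 2 * b - 3 * a * b ^ 2 - 3 / 2 * a * y ^ 2 -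
        b ^ 3 / 2 - 3 * b * y ^ 2) + (3 * a * b * y + 3 / 2 * b ^ 2 * y + y ^ 3 / 2) * r) +
      18 * (a ^ 2 - 1) ^ 2 * ((a ^ 2 + b ^ 2 + y ^ 2 + a * b) - r * (y * (a + b))) -
      27 * (a ^ 2 - 1) ^ 4 := by
    unfold P0 P1
    rw [hb]
    ring
  rw [h1]
  linear_combination ((y * (a + b)) ^ 2) * hr

/-- There are no matrices of size three and two which preserve the forms and have the traces and
determinants forced by the value one of the normalized bracket. -/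
theorem no_matrices {a : ℝ} (ha : 191 / 100 ≤ a) {κ X : ℂ} {y : ℝ} (hy : y ≤ 2)
    (hκ : κ = ⟨1 / 2, -(√3 / 2)⟩)
    (hX : ((a : ℂ) ^ 2 - 1) * X = -((a : ℂ) + ((a : ℂ) ^ 4 - 3 * (a : ℂ) ^ 2 + 1) * κ +
      (y : ℂ) * ⟨-(√3 / 2), 1 / 2⟩))
    (hD : Complex.normSq X ^ 2 + 8 * (X ^ 3 * κ).re + 18 * Complex.normSq X - 27 ≤ 0) :
    False := by
  have hr : (√3 : ℝ) ^ 2 = 3 := Real.sq_sqrt (by norm_num)
  have hr1 : (17320508 / 10000000 : ℝ) < √3 := by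
    apply Real.lt_sqrt_of_sq_lt
    norm_num
  have hr2 : √3 < (17320509 / 10000000 : ℝ) := by
    rw [Real.sqrt_lt' (by norm_num)]
    norm_num
  have hp := pos_disc (a := a) (y := y) (r := √3) ha hy (by linarith) (by linarith)
  rw [← disc_form hr rfl rfl] at hp
  set n : ℝ := a ^ 2 - 1 with hn
  set b : ℝ := a ^ 4 - 3 * a ^ 2 + 1 with hb
  have hn0 : 0 < n := by nlinarith
  set S : ℂ := ⟨a + b / 2 - √3 / 2 * y, -(√3 / 2) * b + y / 2⟩ with hS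
  have hXS : (n : ℂ) * X = -S := by
    have e1 : ((a : ℂ) ^ 2 - 1) = (n : ℂ) := by rw [hn]; push_cast; ring
    have e2 : ((a : ℂ) ^ 4 - 3 * (a : ℂ) ^ 2 + 1) = (b : ℂ) := by rw [hb]; push_cast; ring
    rw [e1, e2] at hX
    rw [hX, hκ, hS]
    congr 1
    apply Complex.ext <;> simp <;> ring
  have hN : n ^ 2 * Complex.normSq X = Complex.normSq S := by
    have := congrArg Complex.normSq hXS
    rw [Complex.normSq_mul, Complex.normSq_neg, Complex.normSq_ofReal] at this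
    rw [← this]
    ring
  have hC : n ^ 3 * (X ^ 3 * κ).re = -(S ^ 3 * κ).re := by
    have h1 : ((n ^ 3 : ℝ) : ℂ) * (X ^ 3 * κ) = -(S ^ 3 * κ) := by
      push_cast
      have : ((n : ℂ) * X) ^ 3 = -S ^ 3 := by rw [hXS]; ring
      linear_combination κ * this
    have h2 := congrArg Complex.re h1
    rw [Complex.re_ofReal_mul, Complex.neg_re] at h2
    exact h2
  have hS1 : Complex.normSq S = (a + b / 2 - √3 / 2 * y) ^ 2 + (-(√3 / 2) * b + y / 2) ^ 2 := by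
    rw [Complex.normSq_apply, hS]
    ring
  have hS2 : (S ^ 3 * κ).re = ((a + b / 2 - √3 / 2 * y) ^ 3 -
        3 * (a + b / 2 - √3 / 2 * y) * (-(√3 / 2) * b + y / 2) ^ 2) / 2 +
      √3 / 2 * (3 * (a + b / 2 - √3 / 2 * y) ^ 2 * (-(√3 / 2) * b + y / 2) -
        (-(√3 / 2) * b + y / 2) ^ 3) := by
    rw [hκ, hS]
    simp only [pow_succ, pow_zero, one_mul, Complex.mul_re, Complex.mul_im]
    ring
  rw [← hS1, ← hS2] at hp
  have h5 : n ^ 4 * (Complex.normSq X ^ 2 + 8 * (X ^ 3 * κ).re + 18 * Complex.normSq X - 27) =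
      Complex.normSq S ^ 2 - 8 * n * (S ^ 3 * κ).re + 18 * n ^ 2 * Complex.normSq S -
        27 * n ^ 4 := by
    rw [← hN]
    linear_combination 8 * n * hC
  rw [← h5] at hp
  have h6 : 0 < n ^ 4 := by positivity
  nlinarith

end Pool.Agent.B4
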