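import Pool.Agent.B4.AtOne

/-!
# Finitely many exponent sums
-/

namespace Pool.Agent.B4

open Matrix Pool.Agent.Per LaurentPolynomial Pool.Agent.Helper1.PK Filter Topology

variable {N : ℕ}

/-- The trace forced by the value `V` of the normalized bracket. -/
noncomputable def forced (a : ℝ) (V : ℂ) (y : ℝ) : ℂ :=
  -((a : ℂ) * V + ((a : ℂ) ^ 4 - 3 * (a : ℂ) ^ 2 + 1) * ⟨1 / 2, -(√3 / 2)⟩ +
    (y : ℂ) * ⟨-(√3 / 2), 1 / 2⟩) / ((a : ℂ) ^ 2 - 1)

/-- The discriminant of the forced trace. -/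
noncomputable def fdisc (a : ℝ) (V : ℂ) (y : ℝ) : ℝ :=
  Complex.normSq (forced a V y) ^ 2 + 8 * (forced a V y ^ 3 * (⟨1 / 2, -(√3 / 2)⟩ : ℂ)).re +
    18 * Complex.normSq (forced a V y) - 27

theorem den_ne {a : ℝ} (ha : 191 / 100 ≤ a) : ((a : ℂ) ^ 2 - 1) ≠ 0 := by
  have h1 : ((a ^ 2 - 1 : ℝ) : ℂ) ≠ 0 := by
    rw [Complex.ofReal_ne_zero]
    nlinarith
  push_cast at h1
  exact h1

theorem fdisc_pos {y : ℝ} (hy : y ≤ 2) : 0 < fdisc 2 1 y := by
  by_contra hc
  push Not at hc
  refine no_matrices (a := 2) (by norm_num) (y := y) hy rfl (X := forced 2 1 y) ?_ hc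
  unfold forced
  rw [mul_one, mul_div_cancel₀ _ (den_ne (by norm_num))]

theorem forced_cont {y : ℝ} :
    ContinuousAt (fun p : (ℝ × ℂ) × ℝ => forced p.1.1 p.1.2 p.2) (((2 : ℝ), (1 : ℂ)), y) := by
  unfold forced
  apply ContinuousAt.div
  · fun_prop
  · fun_prop
  · exact den_ne (by norm_num)

theorem fdisc_cont {y : ℝ} :
    ContinuousAt (fun p : (ℝ × ℂ) × ℝ => fdisc p.1.1 p.1.2 p.2) (((2 : ℝ), (1 : ℂ)), y) := by
  have h := forced_cont (y := y)
  unfold fdisc
  have h1 : ContinuousAt (fun p : (ℝ × ℂ) × ℝ => Complex.normSq (forced p.1.1 p.1.2 p.2))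
      (((2 : ℝ), (1 : ℂ)), y) :=
    Complex.continuous_normSq.continuousAt.comp h
  have h2 : ContinuousAt (fun p : (ℝ × ℂ) × ℝ =>
      (forced p.1.1 p.1.2 p.2 ^ 3 * (⟨1 / 2, -(√3 / 2)⟩ : ℂ)).re) (((2 : ℝ), (1 : ℂ)), y) :=
    Complex.continuous_re.continuousAt.comp ((h.pow 3).mul continuousAt_const)
  exact (((h1.pow 2).add (continuousAt_const.mul h2)).add (continuousAt_const.mul h1)).sub
    continuousAt_const

theorem fdisc_near : ∀ᶠ p in 𝓝 ((2 : ℝ), (1 : ℂ)), ∀ y ∈ Set.Icc (-2 : ℝ) 2,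
    0 < fdisc p.1 p.2 y := by
  apply isCompact_Icc.eventually_forall_of_forall_eventually
  intro y hy
  exact fdisc_cont.eventually_const_lt (fdisc_pos hy.2)

theorem angle_tendsto : Tendsto (fun e : ℤ => Real.pi / (3 * (e : ℝ))) cofinite (𝓝 0) := by
  have h1 : Tendsto (fun e : ℤ => (e : ℝ)) cofinite (Bornology.cobounded ℝ) := by
    rw [Metric.cobounded_eq_cocompact]
    exact Int.tendsto_coe_cofinite
  have h2 := (Filter.tendsto_inv₀_cobounded.comp h1).const_mul (Real.pi / 3)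
  rw [mul_zero] at h2
  refine h2.congr fun e => ?_
  simp only [Function.comp_apply]
  ring

theorem pt_tendsto : Tendsto (fun e : ℤ => ((pt e : ℂˣ) : ℂ)) cofinite (𝓝 1) := by
  have h1 : Tendsto (fun e : ℤ => Complex.exp (((-(Real.pi / (3 * e)) : ℝ) : ℂ) * Complex.I))
      cofinite (𝓝 (Complex.exp (((-(0 : ℝ) : ℝ) : ℂ) * Complex.I))) := by
    have hc : Continuous fun x : ℝ => Complex.exp (((-x : ℝ) : ℂ) * Complex.I) := by
      fun_prop
    exact (hc.tendsto 0).comp angle_tendsto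
  rw [neg_zero, Complex.ofReal_zero, zero_mul, Complex.exp_zero] at h1
  exact h1.congr fun e => (pt_eq e).symm

theorem eval_tendsto (P : ℤ[T;T⁻¹]) :
    Tendsto (fun e : ℤ => LaurentPolynomial.eval₂ (Int.castRingHom ℂ) (pt e) P) cofinite
      (𝓝 (ev1 P)) := by
  induction P using LaurentPolynomial.induction_on' with
  | add p q hp hq =>
    simp only [map_add]
    exact hp.add hq
  | C_mul_T n a =>
    have h1 : ∀ e : ℤ, LaurentPolynomial.eval₂ (Int.castRingHom ℂ) (pt e) (C a * T n) =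
        (a : ℂ) * ((pt e : ℂˣ) : ℂ) ^ n := by
      intro e
      rw [LaurentPolynomial.eval₂_C_mul_T]
      push_cast
      rfl
    have h2 : ev1 (C a * T n) = (a : ℂ) * (1 : ℂ) ^ n := by
      rw [map_mul, ev1_T, _root_.one_zpow]
      congr 1
      unfold ev1
      rw [LaurentPolynomial.eval₂_C]
      rfl
    rw [h2]
    simp only [h1]
    apply Tendsto.const_mul
    exact (continuousAt_zpow₀ (1 : ℂ) n (Or.inl one_ne_zero)).tendsto.comp pt_tendsto

/-- For every Laurent polynomial, only finitely many exponent sums occur among the closed braids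
on four strands which are knots with this normalized bracket. -/
theorem finite_expsum (P : ℤ[T;T⁻¹]) :
    {e : ℤ | ∃ (N : ℕ) (_ : NeZero N) (w : ZMod N → Letter 3) (o : Pt N 3 → ℤˣ),
      (∀ t, (w t).kind ≠ .turn) ∧ IsKnot w ∧ IsOrientation w o ∧ normalized w o = P ∧
        expsum w = e}.Finite := by
  by_cases hP : ev1 P = 1
  · have h1 : Tendsto (fun e : ℤ => ((2 * Real.cos (2 * (Real.pi / (3 * e))) : ℝ),
        LaurentPolynomial.eval₂ (Int.castRingHom ℂ) (pt e) P)) cofinite (𝓝 ((2 : ℝ), (1 : ℂ))) := by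
      apply Tendsto.prodMk_nhds
      · have hc : Continuous fun x : ℝ => 2 * Real.cos (2 * x) := by fun_prop
        have h2 := (hc.tendsto 0).comp angle_tendsto
        simp only [mul_zero, Real.cos_zero, mul_one] at h2
        exact h2
      · rw [← hP]
        exact eval_tendsto P
    have h3 := h1.eventually fdisc_near
    rw [Filter.eventually_cofinite] at h3
    refine (h3.union (Set.finite_Icc (-6 : ℤ) 6)).subset ?_
    rintro e ⟨N, hN0, w, o, hw, hK, ho, hf, he⟩
    by_contra hc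
    rw [Set.mem_union, not_or] at hc
    obtain ⟨hc1, hc2⟩ := hc
    have hc1' : ∀ y ∈ Set.Icc (-2 : ℝ) 2, 0 < fdisc (2 * Real.cos (2 * (Real.pi / (3 * e))))
        (LaurentPolynomial.eval₂ (Int.castRingHom ℂ) (pt e) P) y := by
      by_contra hcc
      exact hc1 hcc
    have hN := odd_letters hw hK
    obtain ⟨k, hk⟩ := expsum_parity hw
    have hodd : Odd (expsum w) := by
      obtain ⟨j, hj⟩ := hN
      exact ⟨j + k, by rw [hk, hj]; push_cast; ring⟩
    subst he
    have h7 : 7 ≤ |expsum w| := by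
      rw [Set.mem_Icc, not_and_or] at hc2
      rcases abs_cases (expsum w) with ⟨h2, _⟩ | ⟨h2, _⟩ <;> rw [h2] <;> omega
    have he : expsum w ≠ 0 := by
      rintro h
      rw [h] at h7
      norm_num at h7
    set φ := LaurentPolynomial.eval₂ (Int.castRingHom ℂ) (pt (expsum w)) with hφ
    have hu : unitA φ = pt (expsum w) := unitA_eval _
    obtain ⟨X, y, hy, hX, hD⟩ := exists_traces hw hodd φ (by rw [hu]; exact pt_unit _)
      (cos_bound h7) (by rw [hu]; exact pt_cos _) (by rw [hu]; exact pt_pow he) rfl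
    have hb : φ (bracket w) = φ P := by
      rw [← hf]
      exact (normalized_eq_bracket hodd φ (by rw [hu]; exact pt_pow he)
        (writhe_knot hw hK ho)).symm
    rw [hb] at hX
    have hXf : X = forced (2 * Real.cos (2 * (Real.pi / (3 * expsum w)))) (φ P) y := by
      unfold forced
      rw [eq_div_iff (den_ne (cos_bound h7)), mul_comm]
      exact hX
    have h8 := hc1' y (abs_le.mp hy)
    unfold fdisc at h8
    rw [← hXf] at h8
    linarith
  · refine Set.finite_empty.subset ?_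
    rintro e ⟨N, hN0, w, o, hw, hK, ho, hf, he⟩
    exact hP (by rw [← hf]; exact ev1_normalized hw hK ho)

end Pool.Agent.B4
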