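import Mathlib

/-!
# The span of the fourteen words in three Temperley-Lieb generators
-/

namespace Pool.Agent.B4

set_option linter.unusedSimpArgs false

variable {R : Type*} [Ring R] [Algebra ℂ R]

/-- The relations of the Temperley-Lieb algebra on four strands. -/
structure TLRel (d : ℂ) (x y z : R) : Prop where
  xx : x * x = d • x
  yy : y * y = d • y
  zz : z * z = d • z
  xyx : x * y * x = x
  yxy : y * x * y = y
  yzy : y * z * y = y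
  zyz : z * y * z = z
  zx : z * x = x * z

/-- The fourteen words. -/
def wd (x y z : R) : Fin 14 → R :=
  ![1, x, y, z, x * y, y * x, y * z, z * y, x * z, x * (y * z), z * (y * x), x * (z * y), y * (x * z), y * (x * (z * y))]

section Rules

variable {d : ℂ} {x y z : R} (h : TLRel d x y z)
include h

theorem r_xx (t : R) : x * (x * t) = d • (x * t) := by rw [← mul_assoc, h.xx, smul_mul_assoc]
theorem r_yy (t : R) : y * (y * t) = d • (y * t) := by rw [← mul_assoc, h.yy, smul_mul_assoc]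
theorem r_zz (t : R) : z * (z * t) = d • (z * t) := by rw [← mul_assoc, h.zz, smul_mul_assoc]
theorem r_xyx (t : R) : x * (y * (x * t)) = x * t := by
  rw [← mul_assoc, ← mul_assoc, h.xyx]
theorem r_yxy (t : R) : y * (x * (y * t)) = y * t := by
  rw [← mul_assoc, ← mul_assoc, h.yxy]
theorem r_yzy (t : R) : y * (z * (y * t)) = y * t := by
  rw [← mul_assoc, ← mul_assoc, h.yzy]
theorem r_zyz (t : R) : z * (y * (z * t)) = z * t := by
  rw [← mul_assoc, ← mul_assoc, h.zyz]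
theorem s_xyx : x * (y * x) = x := by rw [← mul_assoc, h.xyx]
theorem s_yxy : y * (x * y) = y := by rw [← mul_assoc, h.yxy]
theorem s_yzy : y * (z * y) = y := by rw [← mul_assoc, h.yzy]
theorem s_zyz : z * (y * z) = z := by rw [← mul_assoc, h.zyz]
theorem r_zx (t : R) : z * (x * t) = x * (z * t) := by
  rw [← mul_assoc, h.zx, mul_assoc]
theorem s_xzyx : x * (z * (y * x)) = x * z := by
  rw [← r_zx h, s_xyx h, h.zx]
theorem s_zyxz : z * (y * (x * z)) = x * z := by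
  rw [← h.zx, r_zyz h]
theorem r_zyxz (t : R) : z * (y * (x * (z * t))) = x * (z * t) := by
  rw [← r_zx h, r_zyz h, r_zx h]


theorem mul_x (i : Fin 14) : ∃ (c : ℂ) (k : Fin 14), x * wd x y z i = c • wd x y z k := by
  fin_cases i
  · exact ⟨1, 1, (by
      simp [mul_one, h.xx, h.yy, h.zz, r_xx h, r_yy h, r_zz h, r_xyx h, r_yxy h, r_yzy h,
        r_zyz h, s_xyx h, s_yxy h, s_yzy h, s_zyz h, r_zx h, h.zx, s_xzyx h, s_zyxz h, r_zyxz h]
        : x * (1) = (1 : ℂ) • (x))⟩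
  · exact ⟨d, 1, (by
      simp [mul_one, h.xx, h.yy, h.zz, r_xx h, r_yy h, r_zz h, r_xyx h, r_yxy h, r_yzy h,
        r_zyz h, s_xyx h, s_yxy h, s_yzy h, s_zyz h, r_zx h, h.zx, s_xzyx h, s_zyxz h, r_zyxz h]
        : x * (x) = (d : ℂ) • (x))⟩
  · exact ⟨1, 4, (by
      simp [mul_one, h.xx, h.yy, h.zz, r_xx h, r_yy h, r_zz h, r_xyx h, r_yxy h, r_yzy h,
        r_zyz h, s_xyx h, s_yxy h, s_yzy h, s_zyz h, r_zx h, h.zx, s_xzyx h, s_zyxz h, r_zyxz h]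
        : x * (y) = (1 : ℂ) • (x * y))⟩
  · exact ⟨1, 8, (by
      simp [mul_one, h.xx, h.yy, h.zz, r_xx h, r_yy h, r_zz h, r_xyx h, r_yxy h, r_yzy h,
        r_zyz h, s_xyx h, s_yxy h, s_yzy h, s_zyz h, r_zx h, h.zx, s_xzyx h, s_zyxz h, r_zyxz h]
        : x * (z) = (1 : ℂ) • (x * z))⟩
  · exact ⟨d, 4, (by
      simp [mul_one, h.xx, h.yy, h.zz, r_xx h, r_yy h, r_zz h, r_xyx h, r_yxy h, r_yzy h,
        r_zyz h, s_xyx h, s_yxy h, s_yzy h, s_zyz h, r_zx h, h.zx, s_xzyx h, s_zyxz h, r_zyxz h]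
        : x * (x * y) = (d : ℂ) • (x * y))⟩
  · exact ⟨1, 1, (by
      simp [mul_one, h.xx, h.yy, h.zz, r_xx h, r_yy h, r_zz h, r_xyx h, r_yxy h, r_yzy h,
        r_zyz h, s_xyx h, s_yxy h, s_yzy h, s_zyz h, r_zx h, h.zx, s_xzyx h, s_zyxz h, r_zyxz h]
        : x * (y * x) = (1 : ℂ) • (x))⟩
  · exact ⟨1, 9, (by
      simp [mul_one, h.xx, h.yy, h.zz, r_xx h, r_yy h, r_zz h, r_xyx h, r_yxy h, r_yzy h,
        r_zyz h, s_xyx h, s_yxy h, s_yzy h, s_zyz h, r_zx h, h.zx, s_xzyx h, s_zyxz h, r_zyxz h]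
        : x * (y * z) = (1 : ℂ) • (x * (y * z)))⟩
  · exact ⟨1, 11, (by
      simp [mul_one, h.xx, h.yy, h.zz, r_xx h, r_yy h, r_zz h, r_xyx h, r_yxy h, r_yzy h,
        r_zyz h, s_xyx h, s_yxy h, s_yzy h, s_zyz h, r_zx h, h.zx, s_xzyx h, s_zyxz h, r_zyxz h]
        : x * (z * y) = (1 : ℂ) • (x * (z * y)))⟩
  · exact ⟨d, 8, (by
      simp [mul_one, h.xx, h.yy, h.zz, r_xx h, r_yy h, r_zz h, r_xyx h, r_yxy h, r_yzy h,
        r_zyz h, s_xyx h, s_yxy h, s_yzy h, s_zyz h, r_zx h, h.zx, s_xzyx h, s_zyxz h, r_zyxz h]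
        : x * (x * z) = (d : ℂ) • (x * z))⟩
  · exact ⟨d, 9, (by
      simp [mul_one, h.xx, h.yy, h.zz, r_xx h, r_yy h, r_zz h, r_xyx h, r_yxy h, r_yzy h,
        r_zyz h, s_xyx h, s_yxy h, s_yzy h, s_zyz h, r_zx h, h.zx, s_xzyx h, s_zyxz h, r_zyxz h]
        : x * (x * (y * z)) = (d : ℂ) • (x * (y * z)))⟩
  · exact ⟨1, 8, (by
      simp [mul_one, h.xx, h.yy, h.zz, r_xx h, r_yy h, r_zz h, r_xyx h, r_yxy h, r_yzy h,
        r_zyz h, s_xyx h, s_yxy h, s_yzy h, s_zyz h, r_zx h, h.zx, s_xzyx h, s_zyxz h, r_zyxz h]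
        : x * (z * (y * x)) = (1 : ℂ) • (x * z))⟩
  · exact ⟨d, 11, (by
      simp [mul_one, h.xx, h.yy, h.zz, r_xx h, r_yy h, r_zz h, r_xyx h, r_yxy h, r_yzy h,
        r_zyz h, s_xyx h, s_yxy h, s_yzy h, s_zyz h, r_zx h, h.zx, s_xzyx h, s_zyxz h, r_zyxz h]
        : x * (x * (z * y)) = (d : ℂ) • (x * (z * y)))⟩
  · exact ⟨1, 8, (by
      simp [mul_one, h.xx, h.yy, h.zz, r_xx h, r_yy h, r_zz h, r_xyx h, r_yxy h, r_yzy h,
        r_zyz h, s_xyx h, s_yxy h, s_yzy h, s_zyz h, r_zx h, h.zx, s_xzyx h, s_zyxz h, r_zyxz h]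
        : x * (y * (x * z)) = (1 : ℂ) • (x * z))⟩
  · exact ⟨1, 11, (by
      simp [mul_one, h.xx, h.yy, h.zz, r_xx h, r_yy h, r_zz h, r_xyx h, r_yxy h, r_yzy h,
        r_zyz h, s_xyx h, s_yxy h, s_yzy h, s_zyz h, r_zx h, h.zx, s_xzyx h, s_zyxz h, r_zyxz h]
        : x * (y * (x * (z * y))) = (1 : ℂ) • (x * (z * y)))⟩

theorem mul_y (i : Fin 14) : ∃ (c : ℂ) (k : Fin 14), y * wd x y z i = c • wd x y z k := by
  fin_cases i
  · exact ⟨1, 2, (by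
      simp [mul_one, h.xx, h.yy, h.zz, r_xx h, r_yy h, r_zz h, r_xyx h, r_yxy h, r_yzy h,
        r_zyz h, s_xyx h, s_yxy h, s_yzy h, s_zyz h, r_zx h, h.zx, s_xzyx h, s_zyxz h, r_zyxz h]
        : y * (1) = (1 : ℂ) • (y))⟩
  · exact ⟨1, 5, (by
      simp [mul_one, h.xx, h.yy, h.zz, r_xx h, r_yy h, r_zz h, r_xyx h, r_yxy h, r_yzy h,
        r_zyz h, s_xyx h, s_yxy h, s_yzy h, s_zyz h, r_zx h, h.zx, s_xzyx h, s_zyxz h, r_zyxz h]
        : y * (x) = (1 : ℂ) • (y * x))⟩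
  · exact ⟨d, 2, (by
      simp [mul_one, h.xx, h.yy, h.zz, r_xx h, r_yy h, r_zz h, r_xyx h, r_yxy h, r_yzy h,
        r_zyz h, s_xyx h, s_yxy h, s_yzy h, s_zyz h, r_zx h, h.zx, s_xzyx h, s_zyxz h, r_zyxz h]
        : y * (y) = (d : ℂ) • (y))⟩
  · exact ⟨1, 6, (by
      simp [mul_one, h.xx, h.yy, h.zz, r_xx h, r_yy h, r_zz h, r_xyx h, r_yxy h, r_yzy h,
        r_zyz h, s_xyx h, s_yxy h, s_yzy h, s_zyz h, r_zx h, h.zx, s_xzyx h, s_zyxz h, r_zyxz h]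
        : y * (z) = (1 : ℂ) • (y * z))⟩
  · exact ⟨1, 2, (by
      simp [mul_one, h.xx, h.yy, h.zz, r_xx h, r_yy h, r_zz h, r_xyx h, r_yxy h, r_yzy h,
        r_zyz h, s_xyx h, s_yxy h, s_yzy h, s_zyz h, r_zx h, h.zx, s_xzyx h, s_zyxz h, r_zyxz h]
        : y * (x * y) = (1 : ℂ) • (y))⟩
  · exact ⟨d, 5, (by
      simp [mul_one, h.xx, h.yy, h.zz, r_xx h, r_yy h, r_zz h, r_xyx h, r_yxy h, r_yzy h,
        r_zyz h, s_xyx h, s_yxy h, s_yzy h, s_zyz h, r_zx h, h.zx, s_xzyx h, s_zyxz h, r_zyxz h]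
        : y * (y * x) = (d : ℂ) • (y * x))⟩
  · exact ⟨d, 6, (by
      simp [mul_one, h.xx, h.yy, h.zz, r_xx h, r_yy h, r_zz h, r_xyx h, r_yxy h, r_yzy h,
        r_zyz h, s_xyx h, s_yxy h, s_yzy h, s_zyz h, r_zx h, h.zx, s_xzyx h, s_zyxz h, r_zyxz h]
        : y * (y * z) = (d : ℂ) • (y * z))⟩
  · exact ⟨1, 2, (by
      simp [mul_one, h.xx, h.yy, h.zz, r_xx h, r_yy h, r_zz h, r_xyx h, r_yxy h, r_yzy h,
        r_zyz h, s_xyx h, s_yxy h, s_yzy h, s_zyz h, r_zx h, h.zx, s_xzyx h, s_zyxz h, r_zyxz h]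
        : y * (z * y) = (1 : ℂ) • (y))⟩
  · exact ⟨1, 12, (by
      simp [mul_one, h.xx, h.yy, h.zz, r_xx h, r_yy h, r_zz h, r_xyx h, r_yxy h, r_yzy h,
        r_zyz h, s_xyx h, s_yxy h, s_yzy h, s_zyz h, r_zx h, h.zx, s_xzyx h, s_zyxz h, r_zyxz h]
        : y * (x * z) = (1 : ℂ) • (y * (x * z)))⟩
  · exact ⟨1, 6, (by
      simp [mul_one, h.xx, h.yy, h.zz, r_xx h, r_yy h, r_zz h, r_xyx h, r_yxy h, r_yzy h,
        r_zyz h, s_xyx h, s_yxy h, s_yzy h, s_zyz h, r_zx h, h.zx, s_xzyx h, s_zyxz h, r_zyxz h]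
        : y * (x * (y * z)) = (1 : ℂ) • (y * z))⟩
  · exact ⟨1, 5, (by
      simp [mul_one, h.xx, h.yy, h.zz, r_xx h, r_yy h, r_zz h, r_xyx h, r_yxy h, r_yzy h,
        r_zyz h, s_xyx h, s_yxy h, s_yzy h, s_zyz h, r_zx h, h.zx, s_xzyx h, s_zyxz h, r_zyxz h]
        : y * (z * (y * x)) = (1 : ℂ) • (y * x))⟩
  · exact ⟨1, 13, (by
      simp [mul_one, h.xx, h.yy, h.zz, r_xx h, r_yy h, r_zz h, r_xyx h, r_yxy h, r_yzy h,
        r_zyz h, s_xyx h, s_yxy h, s_yzy h, s_zyz h, r_zx h, h.zx, s_xzyx h, s_zyxz h, r_zyxz h]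
        : y * (x * (z * y)) = (1 : ℂ) • (y * (x * (z * y))))⟩
  · exact ⟨d, 12, (by
      simp [mul_one, h.xx, h.yy, h.zz, r_xx h, r_yy h, r_zz h, r_xyx h, r_yxy h, r_yzy h,
        r_zyz h, s_xyx h, s_yxy h, s_yzy h, s_zyz h, r_zx h, h.zx, s_xzyx h, s_zyxz h, r_zyxz h]
        : y * (y * (x * z)) = (d : ℂ) • (y * (x * z)))⟩
  · exact ⟨d, 13, (by
      simp [mul_one, h.xx, h.yy, h.zz, r_xx h, r_yy h, r_zz h, r_xyx h, r_yxy h, r_yzy h,
        r_zyz h, s_xyx h, s_yxy h, s_yzy h, s_zyz h, r_zx h, h.zx, s_xzyx h, s_zyxz h, r_zyxz h]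
        : y * (y * (x * (z * y))) = (d : ℂ) • (y * (x * (z * y))))⟩

theorem mul_z (i : Fin 14) : ∃ (c : ℂ) (k : Fin 14), z * wd x y z i = c • wd x y z k := by
  fin_cases i
  · exact ⟨1, 3, (by
      simp [mul_one, h.xx, h.yy, h.zz, r_xx h, r_yy h, r_zz h, r_xyx h, r_yxy h, r_yzy h,
        r_zyz h, s_xyx h, s_yxy h, s_yzy h, s_zyz h, r_zx h, h.zx, s_xzyx h, s_zyxz h, r_zyxz h]
        : z * (1) = (1 : ℂ) • (z))⟩
  · exact ⟨1, 8, (by
      simp [mul_one, h.xx, h.yy, h.zz, r_xx h, r_yy h, r_zz h, r_xyx h, r_yxy h, r_yzy h,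
        r_zyz h, s_xyx h, s_yxy h, s_yzy h, s_zyz h, r_zx h, h.zx, s_xzyx h, s_zyxz h, r_zyxz h]
        : z * (x) = (1 : ℂ) • (x * z))⟩
  · exact ⟨1, 7, (by
      simp [mul_one, h.xx, h.yy, h.zz, r_xx h, r_yy h, r_zz h, r_xyx h, r_yxy h, r_yzy h,
        r_zyz h, s_xyx h, s_yxy h, s_yzy h, s_zyz h, r_zx h, h.zx, s_xzyx h, s_zyxz h, r_zyxz h]
        : z * (y) = (1 : ℂ) • (z * y))⟩
  · exact ⟨d, 3, (by
      simp [mul_one, h.xx, h.yy, h.zz, r_xx h, r_yy h, r_zz h, r_xyx h, r_yxy h, r_yzy h,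
        r_zyz h, s_xyx h, s_yxy h, s_yzy h, s_zyz h, r_zx h, h.zx, s_xzyx h, s_zyxz h, r_zyxz h]
        : z * (z) = (d : ℂ) • (z))⟩
  · exact ⟨1, 11, (by
      simp [mul_one, h.xx, h.yy, h.zz, r_xx h, r_yy h, r_zz h, r_xyx h, r_yxy h, r_yzy h,
        r_zyz h, s_xyx h, s_yxy h, s_yzy h, s_zyz h, r_zx h, h.zx, s_xzyx h, s_zyxz h, r_zyxz h]
        : z * (x * y) = (1 : ℂ) • (x * (z * y)))⟩
  · exact ⟨1, 10, (by
      simp [mul_one, h.xx, h.yy, h.zz, r_xx h, r_yy h, r_zz h, r_xyx h, r_yxy h, r_yzy h,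
        r_zyz h, s_xyx h, s_yxy h, s_yzy h, s_zyz h, r_zx h, h.zx, s_xzyx h, s_zyxz h, r_zyxz h]
        : z * (y * x) = (1 : ℂ) • (z * (y * x)))⟩
  · exact ⟨1, 3, (by
      simp [mul_one, h.xx, h.yy, h.zz, r_xx h, r_yy h, r_zz h, r_xyx h, r_yxy h, r_yzy h,
        r_zyz h, s_xyx h, s_yxy h, s_yzy h, s_zyz h, r_zx h, h.zx, s_xzyx h, s_zyxz h, r_zyxz h]
        : z * (y * z) = (1 : ℂ) • (z))⟩
  · exact ⟨d, 7, (by
      simp [mul_one, h.xx, h.yy, h.zz, r_xx h, r_yy h, r_zz h, r_xyx h, r_yxy h, r_yzy h,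
        r_zyz h, s_xyx h, s_yxy h, s_yzy h, s_zyz h, r_zx h, h.zx, s_xzyx h, s_zyxz h, r_zyxz h]
        : z * (z * y) = (d : ℂ) • (z * y))⟩
  · exact ⟨d, 8, (by
      simp [mul_one, h.xx, h.yy, h.zz, r_xx h, r_yy h, r_zz h, r_xyx h, r_yxy h, r_yzy h,
        r_zyz h, s_xyx h, s_yxy h, s_yzy h, s_zyz h, r_zx h, h.zx, s_xzyx h, s_zyxz h, r_zyxz h]
        : z * (x * z) = (d : ℂ) • (x * z))⟩
  · exact ⟨1, 8, (by
      simp [mul_one, h.xx, h.yy, h.zz, r_xx h, r_yy h, r_zz h, r_xyx h, r_yxy h, r_yzy h,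
        r_zyz h, s_xyx h, s_yxy h, s_yzy h, s_zyz h, r_zx h, h.zx, s_xzyx h, s_zyxz h, r_zyxz h]
        : z * (x * (y * z)) = (1 : ℂ) • (x * z))⟩
  · exact ⟨d, 10, (by
      simp [mul_one, h.xx, h.yy, h.zz, r_xx h, r_yy h, r_zz h, r_xyx h, r_yxy h, r_yzy h,
        r_zyz h, s_xyx h, s_yxy h, s_yzy h, s_zyz h, r_zx h, h.zx, s_xzyx h, s_zyxz h, r_zyxz h]
        : z * (z * (y * x)) = (d : ℂ) • (z * (y * x)))⟩
  · exact ⟨d, 11, (by
      simp [mul_one, h.xx, h.yy, h.zz, r_xx h, r_yy h, r_zz h, r_xyx h, r_yxy h, r_yzy h,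
        r_zyz h, s_xyx h, s_yxy h, s_yzy h, s_zyz h, r_zx h, h.zx, s_xzyx h, s_zyxz h, r_zyxz h]
        : z * (x * (z * y)) = (d : ℂ) • (x * (z * y)))⟩
  · exact ⟨1, 8, (by
      simp [mul_one, h.xx, h.yy, h.zz, r_xx h, r_yy h, r_zz h, r_xyx h, r_yxy h, r_yzy h,
        r_zyz h, s_xyx h, s_yxy h, s_yzy h, s_zyz h, r_zx h, h.zx, s_xzyx h, s_zyxz h, r_zyxz h]
        : z * (y * (x * z)) = (1 : ℂ) • (x * z))⟩
  · exact ⟨1, 11, (by
      simp [mul_one, h.xx, h.yy, h.zz, r_xx h, r_yy h, r_zz h, r_xyx h, r_yxy h, r_yzy h,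
        r_zyz h, s_xyx h, s_yxy h, s_yzy h, s_zyz h, r_zx h, h.zx, s_xzyx h, s_zyxz h, r_zyxz h]
        : z * (y * (x * (z * y))) = (1 : ℂ) • (x * (z * y)))⟩

/-- The span of the words is closed under multiplication by the generators from the left. -/
theorem span_mul {g : R} (hg : g = x ∨ g = y ∨ g = z) {s : R}
    (hs : s ∈ Submodule.span ℂ (Set.range (wd x y z))) :
    g * s ∈ Submodule.span ℂ (Set.range (wd x y z)) := by
  induction hs using Submodule.span_induction with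
  | mem t ht =>
    obtain ⟨i, rfl⟩ := ht
    have h1 : ∃ (c : ℂ) (k : Fin 14), g * wd x y z i = c • wd x y z k := by
      rcases hg with rfl | rfl | rfl
      · exact mul_x h i
      · exact mul_y h i
      · exact mul_z h i
    obtain ⟨c, k, hk⟩ := h1
    rw [hk]
    exact Submodule.smul_mem _ _ (Submodule.subset_span ⟨k, rfl⟩)
  | zero =>
    rw [mul_zero]
    exact Submodule.zero_mem _
  | add a b _ _ ha hb =>
    rw [mul_add]
    exact Submodule.add_mem _ ha hb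
  | smul c a _ ha =>
    rw [mul_smul_comm]
    exact Submodule.smul_mem _ _ ha

/-- Products of combinations of the unit and the generators lie in the span of the words. -/
theorem list_mem (l : List R) (hl : ∀ g ∈ l, ∃ (a b : ℂ) (e : R), (e = x ∨ e = y ∨ e = z) ∧
    g = a • (1 : R) + b • e) : l.prod ∈ Submodule.span ℂ (Set.range (wd x y z)) := by
  induction l with
  | nil => exact Submodule.subset_span ⟨0, rfl⟩
  | cons g l ih =>
    obtain ⟨a, b, e, he, hg⟩ := hl g (by simp)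
    have h1 := ih fun g' hg' => hl g' (by simp [hg'])
    rw [List.prod_cons, hg, add_mul, smul_mul_assoc, smul_mul_assoc, one_mul]
    exact Submodule.add_mem _ (Submodule.smul_mem _ _ h1)
      (Submodule.smul_mem _ _ (span_mul h he h1))

end Rules

end Pool.Agent.B4
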