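import Pool.Agent.B4.Unimod
import Pool.Agent.B4.TLfour

/-!
# The representations of dimension three and two
-/

namespace Pool.Agent.B4

open Matrix

/-- The turnbacks in the representation of dimension three. -/
def EE (d : ℂ) : Fin 3 → Matrix (Fin 3) (Fin 3) ℂ :=
  ![!![d, 1, 0; 0, 0, 0; 0, 0, 0], !![0, 0, 0; 1, d, 1; 0, 0, 0], !![0, 0, 0; 0, 0, 0; 0, 1, d]]

/-- The turnbacks in the representation of dimension two. -/
def FF (d : ℂ) : Fin 3 → Matrix (Fin 2) (Fin 2) ℂ :=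
  ![!![d, 1; 0, 0], !![0, 0; 1, d], !![d, 1; 0, 0]]

/-- The form on the representation of dimension three. -/
def G3 (d : ℂ) : Matrix (Fin 3) (Fin 3) ℂ := !![-d, -1, 0; -1, -d, -1; 0, -1, -d]

/-- The form on the representation of dimension two. -/
def G2 (d : ℂ) : Matrix (Fin 2) (Fin 2) ℂ := !![-d, -1; -1, -d]

theorem EE_rel (d : ℂ) : TLRel d (EE d 0) (EE d 1) (EE d 2) := by
  constructor <;>
  · ext i j
    fin_cases i <;> fin_cases j <;> simp [EE, Matrix.mul_apply, Fin.sum_univ_three]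

theorem FF_rel (d : ℂ) : TLRel d (FF d 0) (FF d 1) (FF d 2) := by
  constructor <;>
  · ext i j
    fin_cases i <;> fin_cases j <;> simp [FF, Matrix.mul_apply, Fin.sum_univ_two]

theorem isom_of {n : ℕ} {d s : ℂ} {E G : Matrix (Fin n) (Fin n) ℂ} (h1 : Eᴴ * G = G * E)
    (h2 : E * E = d • E) (hs : (starRingEnd ℂ) s * s = 1) (hd : s ^ 2 + (s⁻¹) ^ 2 + d = 0) :
    (s • (1 : Matrix (Fin n) (Fin n) ℂ) + s⁻¹ • E)ᴴ * G * (s • (1 : Matrix (Fin n) (Fin n) ℂ) +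
      s⁻¹ • E) = G := by
  have hs0 : s ≠ 0 := by
    rintro rfl
    simp at hs
  have e1 : (starRingEnd ℂ) s = s⁻¹ := eq_inv_of_mul_eq_one_left hs
  have e2 : (s • (1 : Matrix (Fin n) (Fin n) ℂ) + s⁻¹ • E)ᴴ =
      s⁻¹ • (1 : Matrix (Fin n) (Fin n) ℂ) + s • Eᴴ := by
    rw [Matrix.conjTranspose_add, Matrix.conjTranspose_smul, Matrix.conjTranspose_smul,
      Matrix.conjTranspose_one]
    congr 1
    · congr 1
    · congr 1
      show (starRingEnd ℂ) s⁻¹ = s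
      rw [map_inv₀, e1, inv_inv]
  have e3 : G * E * E = d • (G * E) := by rw [mul_assoc, h2, mul_smul_comm]
  have e4 : (s⁻¹ • (1 : Matrix (Fin n) (Fin n) ℂ) + s • Eᴴ) * G = s⁻¹ • G + s • (G * E) := by
    rw [add_mul, smul_mul_assoc, smul_mul_assoc, one_mul, h1]
  rw [e2, e4, mul_add, add_mul, add_mul]
  simp only [smul_mul_assoc, mul_smul_comm, mul_one, e3, smul_smul]
  have e5 : s⁻¹ * s = 1 := inv_mul_cancel₀ hs0
  have e6 : s * s⁻¹ = 1 := mul_inv_cancel₀ hs0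
  rw [e6, one_smul]
  have e7 : s * s + (s⁻¹ * s⁻¹ + s⁻¹ * (s * d)) = 0 := by
    rw [← mul_assoc, e5, one_mul]
    linear_combination hd
  have e8 : G + (s * s) • (G * E) + ((s⁻¹ * s⁻¹) • (G * E) + (s⁻¹ * (s * d)) • (G * E)) =
      G + (s * s + (s⁻¹ * s⁻¹ + s⁻¹ * (s * d))) • (G * E) := by
    module
  rw [e8, e7, zero_smul, add_zero]

theorem EE_adj {d : ℂ} (hd : (starRingEnd ℂ) d = d) (i : Fin 3) :
    (EE d i)ᴴ * G3 d = G3 d * EE d i := by
  fin_cases i <;> ext a b <;> fin_cases a <;> fin_cases b <;>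
    simp [EE, G3, Matrix.mul_apply, Fin.sum_univ_three, hd]

theorem FF_adj {d : ℂ} (hd : (starRingEnd ℂ) d = d) (i : Fin 3) :
    (FF d i)ᴴ * G2 d = G2 d * FF d i := by
  fin_cases i <;> ext a b <;> fin_cases a <;> fin_cases b <;>
    simp [FF, G2, Matrix.mul_apply, Fin.sum_univ_two, hd]

theorem EE_sq (d : ℂ) (i : Fin 3) : EE d i * EE d i = d • EE d i := by
  fin_cases i
  · exact (EE_rel d).xx
  · exact (EE_rel d).yy
  · exact (EE_rel d).zz

theorem FF_sq (d : ℂ) (i : Fin 3) : FF d i * FF d i = d • FF d i := by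
  fin_cases i
  · exact (FF_rel d).xx
  · exact (FF_rel d).yy
  · exact (FF_rel d).zz

theorem EE_det {d s : ℂ} (hs : s ≠ 0) (hd : s ^ 2 + (s⁻¹) ^ 2 + d = 0) (i : Fin 3) :
    (s • (1 : Matrix (Fin 3) (Fin 3) ℂ) + s⁻¹ • EE d i).det = -s⁻¹ := by
  have hd' : d = -s ^ 2 - (s⁻¹) ^ 2 := by linear_combination hd
  subst hd'
  fin_cases i <;> simp [EE, Matrix.det_fin_three] <;> field_simp <;> ring

theorem FF_det {d s : ℂ} (hs : s ≠ 0) (hd : s ^ 2 + (s⁻¹) ^ 2 + d = 0) (i : Fin 3) :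
    (s • (1 : Matrix (Fin 2) (Fin 2) ℂ) + s⁻¹ • FF d i).det = -(s⁻¹) ^ 2 := by
  have hd' : d = -s ^ 2 - (s⁻¹) ^ 2 := by linear_combination hd
  subst hd'
  fin_cases i <;> simp [FF, Matrix.det_fin_two] <;> field_simp <;> ring

theorem G3_pos {a : ℝ} (ha : 191 / 100 ≤ a) (v : Fin 3 → ℂ) (hv : v ≠ 0) :
    star v ⬝ᵥ (G3 (-a) *ᵥ v) ≠ 0 := by
  intro h
  have h1 := congrArg Complex.re h
  simp [G3, Matrix.mulVec, dotProduct, Fin.sum_univ_three] at h1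
  apply hv
  have h2 : ((v 0).re ^ 2 + (v 0).im ^ 2) + ((v 1).re ^ 2 + (v 1).im ^ 2) +
      ((v 2).re ^ 2 + (v 2).im ^ 2) ≤ 0 := by
    nlinarith [sq_nonneg ((v 0).re - (v 1).re * (3 / 4)), sq_nonneg ((v 0).im - (v 1).im * (3 / 4)),
      sq_nonneg ((v 2).re - (v 1).re * (3 / 4)), sq_nonneg ((v 2).im - (v 1).im * (3 / 4)),
      mul_nonneg (sub_nonneg.mpr ha) (sq_nonneg (v 0).re),
      mul_nonneg (sub_nonneg.mpr ha) (sq_nonneg (v 0).im),
      mul_nonneg (sub_nonneg.mpr ha) (sq_nonneg (v 1).re),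
      mul_nonneg (sub_nonneg.mpr ha) (sq_nonneg (v 1).im),
      mul_nonneg (sub_nonneg.mpr ha) (sq_nonneg (v 2).re),
      mul_nonneg (sub_nonneg.mpr ha) (sq_nonneg (v 2).im)]
  have h3 : ∀ i : Fin 3, v i = 0 := by
    intro i
    apply Complex.ext
    · fin_cases i <;> simp <;>
        nlinarith [sq_nonneg (v 0).re, sq_nonneg (v 0).im, sq_nonneg (v 1).re, sq_nonneg (v 1).im,
          sq_nonneg (v 2).re, sq_nonneg (v 2).im]
    · fin_cases i <;> simp <;>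
        nlinarith [sq_nonneg (v 0).re, sq_nonneg (v 0).im, sq_nonneg (v 1).re, sq_nonneg (v 1).im,
          sq_nonneg (v 2).re, sq_nonneg (v 2).im]
  ext i
  rw [h3 i]
  rfl

theorem G2_pos {a : ℝ} (ha : 191 / 100 ≤ a) (v : Fin 2 → ℂ) (hv : v ≠ 0) :
    star v ⬝ᵥ (G2 (-a) *ᵥ v) ≠ 0 := by
  intro h
  have h1 := congrArg Complex.re h
  simp [G2, Matrix.mulVec, dotProduct, Fin.sum_univ_two] at h1
  apply hv
  have h2 : ((v 0).re ^ 2 + (v 0).im ^ 2) + ((v 1).re ^ 2 + (v 1).im ^ 2) ≤ 0 := by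
    nlinarith [sq_nonneg ((v 0).re - (v 1).re), sq_nonneg ((v 0).im - (v 1).im),
      mul_nonneg (sub_nonneg.mpr ha) (sq_nonneg (v 0).re),
      mul_nonneg (sub_nonneg.mpr ha) (sq_nonneg (v 0).im),
      mul_nonneg (sub_nonneg.mpr ha) (sq_nonneg (v 1).re),
      mul_nonneg (sub_nonneg.mpr ha) (sq_nonneg (v 1).im)]
  have h3 : ∀ i : Fin 2, v i = 0 := by
    intro i
    apply Complex.ext
    · fin_cases i <;> simp <;>
        nlinarith [sq_nonneg (v 0).re, sq_nonneg (v 0).im, sq_nonneg (v 1).re, sq_nonneg (v 1).im]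
    · fin_cases i <;> simp <;>
        nlinarith [sq_nonneg (v 0).re, sq_nonneg (v 0).im, sq_nonneg (v 1).re, sq_nonneg (v 1).im]
  ext i
  rw [h3 i]
  rfl

end Pool.Agent.B4
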