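import Pool.Agent.B4.Words
import Pool.Agent.B4.Final

/-!
# Closed braids on four strands with large exponent sum
-/

namespace Pool.Agent.B4

open Matrix Pool.Agent.Per LaurentPolynomial Pool.Agent.Helper1.PK

variable {N : ℕ}

theorem bracket_trace [NeZero N] (φ : ℤ[T;T⁻¹] →+* ℂ) (w : ZMod N → Letter 3) :
    loopv (unitA φ) * φ (bracket w) =
      (loopv (unitA φ) ^ 4 - 3 * loopv (unitA φ) ^ 2 + 1) * word φ (fun _ => (0 : ℂ)) w +
        (loopv (unitA φ) ^ 2 - 1) * Matrix.trace (word φ (EE (loopv (unitA φ))) w) +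
        Matrix.trace (word φ (FF (loopv (unitA φ))) w) := by
  rw [← word_trace, ← transfer stateThm cyc φ (-(unitA φ) ^ 2) w, z_add, loopv_unitA,
    Polynomial.eval₂_at_apply, annular_eval, map_mul]

theorem eval_normalized [NeZero N] (φ : ℤ[T;T⁻¹] →+* ℂ) (w : ZMod N → Letter 3)
    (o : Pt N 3 → ℤˣ) (ho : Odd (writhe w o)) :
    φ (normalized w o) = -(((unitA φ) ^ (-3 * writhe w o) : ℂˣ) : ℂ) * φ (bracket w) := by
  unfold normalized
  rw [map_mul, map_mul, ← unitA_zpow, ho.neg_one_zpow]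
  simp

/-- The traces of the two representations, when `A ^ e = exp (-π i / 3)`. -/
theorem exists_traces [NeZero N] {w : ZMod N → Letter 3} (hw : ∀ t, (w t).kind ≠ .turn)
    (hodd : Odd (expsum w)) (φ : ℤ[T;T⁻¹] →+* ℂ)
    (hA : (starRingEnd ℂ) (unitA φ : ℂ) * (unitA φ : ℂ) = 1) {a : ℝ} (ha : 191 / 100 ≤ a)
    (hAa : (a : ℂ) = (unitA φ : ℂ) ^ 2 + ((unitA φ : ℂ)⁻¹) ^ 2) {κ : ℂ}
    (hκ' : (((unitA φ) ^ expsum w : ℂˣ) : ℂ) = κ) (hκ : κ = ⟨1 / 2, -(√3 / 2)⟩) :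
    ∃ (X : ℂ) (y : ℝ), |y| ≤ 2 ∧
      ((a : ℂ) ^ 2 - 1) * X = -((a : ℂ) * φ (bracket w) +
        ((a : ℂ) ^ 4 - 3 * (a : ℂ) ^ 2 + 1) * κ + (y : ℂ) * ⟨-(√3 / 2), 1 / 2⟩) ∧
      Complex.normSq X ^ 2 + 8 * (X ^ 3 * κ).re + 18 * Complex.normSq X - 27 ≤ 0 := by
  have hd : loopv (unitA φ) = -(a : ℂ) := by
    rw [loopv_eq, hAa]
    ring
  have hr : (√3 : ℝ) ^ 2 = 3 := Real.sq_sqrt (by norm_num)
  have hκc : (starRingEnd ℂ) κ * κ = 1 := by
    rw [← hκ']
    exact unit_rel φ hA _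
  have hκi : κ⁻¹ = (starRingEnd ℂ) κ := (eq_inv_of_mul_eq_one_left hκc).symm
  have hpar : (-1 : ℂ) ^ N = -1 := by
    obtain ⟨k, hk⟩ := expsum_parity hw
    obtain ⟨j, hj⟩ := hodd
    have : Odd N := by
      have h2 : Odd (N : ℤ) := ⟨j - k, by omega⟩
      exact_mod_cast h2
    exact this.neg_one_pow
  have ht := bracket_trace φ w
  rw [hd] at ht
  have hz := word_zero φ hw
  rw [hκ'] at hz
  set X := Matrix.trace (word φ (EE (loopv (unitA φ))) w) with hX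
  set Y := Matrix.trace (word φ (FF (loopv (unitA φ))) w) with hY
  rw [hd] at hX hY
  rw [hz, ← hX, ← hY] at ht
  -- the representation of dimension two
  have hi2 := word_isom2 φ hw hA
  have hdet2 := word_det2 φ hw
  rw [hz, hpar] at hdet2
  rw [hd] at hi2 hdet2
  have hρ1 : (starRingEnd ℂ) (⟨-(√3 / 2), 1 / 2⟩ : ℂ) * ⟨-(√3 / 2), 1 / 2⟩ = 1 := by
    apply Complex.ext
    · simp only [Complex.mul_re, Complex.conj_re, Complex.conj_im, Complex.one_re]
      linear_combination (1 / 4) * hr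
    · simp only [Complex.mul_im, Complex.conj_re, Complex.conj_im, Complex.one_im]
      ring
  have hρ2 : (word φ (FF (-(a : ℂ))) w).det = (⟨-(√3 / 2), 1 / 2⟩ : ℂ) ^ 2 := by
    rw [hdet2, hκi, hκ]
    apply Complex.ext
    · simp only [sq, Complex.mul_re, Complex.mul_im, Complex.conj_re, Complex.conj_im,
        Complex.neg_re, Complex.neg_im, Complex.one_re, Complex.one_im]
      ring
    · simp only [sq, Complex.mul_re, Complex.mul_im, Complex.conj_re, Complex.conj_im,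
        Complex.neg_re, Complex.neg_im, Complex.one_re, Complex.one_im]
      ring
  obtain ⟨y, hy, hYy⟩ := two_roots (G2_pos ha) hi2 hρ2 hρ1
  rw [← hY] at hYy
  -- the representation of dimension three
  have hi3 := word_isom3 φ hw hA
  have hdet3 := word_det3 φ hw
  rw [hz, hpar] at hdet3
  rw [hd] at hi3 hdet3
  have hD := three_roots (G3_pos ha) hi3
  rw [← hX, hdet3] at hD
  refine ⟨X, y, hy, ?_, ?_⟩
  · rw [hYy] at ht
    linear_combination -ht
  · have e1 : (X ^ 3 * (starRingEnd ℂ) (-1 * κ⁻¹)).re = -(X ^ 3 * κ).re := by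
      rw [map_mul, map_neg, map_one, map_inv₀, ← hκi, inv_inv, ← Complex.neg_re]
      congr 1
      ring
    rw [e1] at hD
    linarith

/-- At a point where `A ^ e = exp (-π i / 3)` the normalized bracket is the bracket. -/
theorem normalized_eq_bracket [NeZero N] {w : ZMod N → Letter 3}
    (hodd : Odd (expsum w)) (φ : ℤ[T;T⁻¹] →+* ℂ)
    (hκ : (((unitA φ) ^ expsum w : ℂˣ) : ℂ) = ⟨1 / 2, -(√3 / 2)⟩) {o : Pt N 3 → ℤˣ}
    (ho : writhe w o = expsum w) : φ (normalized w o) = φ (bracket w) := by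
  have hr : (√3 : ℝ) ^ 2 = 3 := Real.sq_sqrt (by norm_num)
  set κ : ℂ := (((unitA φ) ^ expsum w : ℂˣ) : ℂ) with hκd
  have hκ3 : κ ^ 3 = -1 := by
    rw [hκ]
    apply Complex.ext
    · simp only [pow_succ, pow_zero, one_mul, Complex.mul_re, Complex.mul_im, Complex.neg_re,
        Complex.one_re]
      linear_combination (-(3 / 8)) * hr
    · simp only [pow_succ, pow_zero, one_mul, Complex.mul_re, Complex.mul_im, Complex.neg_im,
        Complex.one_im]
      linear_combination (√3 / 8) * hr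
  rw [eval_normalized φ w o (by rw [ho]; exact hodd), ho]
  have h2 : (((unitA φ) ^ (-3 * expsum w) : ℂˣ) : ℂ) = -1 := by
    rw [mul_comm, _root_.zpow_mul]
    push_cast
    rw [← Units.val_zpow_eq_zpow_val, ← hκd, _root_.zpow_neg]
    have h3 : κ ^ (3 : ℤ) = -1 := by exact_mod_cast hκ3
    rw [h3]
    norm_num
  rw [h2]
  ring

/-- The value of the normalized bracket at a point where `A ^ e = exp (-π i / 3)`. -/
theorem value_ne_one [NeZero N] {w : ZMod N → Letter 3} (hw : ∀ t, (w t).kind ≠ .turn)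
    (hodd : Odd (expsum w)) (φ : ℤ[T;T⁻¹] →+* ℂ)
    (hA : (starRingEnd ℂ) (unitA φ : ℂ) * (unitA φ : ℂ) = 1) {a : ℝ} (ha : 191 / 100 ≤ a)
    (hAa : (a : ℂ) = (unitA φ : ℂ) ^ 2 + ((unitA φ : ℂ)⁻¹) ^ 2)
    (hκ : (((unitA φ) ^ expsum w : ℂˣ) : ℂ) = ⟨1 / 2, -(√3 / 2)⟩) {o : Pt N 3 → ℤˣ}
    (ho : writhe w o = expsum w) : φ (normalized w o) ≠ 1 := by
  intro h1
  rw [normalized_eq_bracket hodd φ hκ ho] at h1
  obtain ⟨X, y, hy, hX, hD⟩ := exists_traces hw hodd φ hA ha hAa rfl hκ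
  rw [h1, mul_one] at hX
  exact no_matrices ha (le_of_abs_le hy) hκ hX hD

/-- The point `exp (-π i / (3 e))`. -/
noncomputable def pt (e : ℤ) : ℂˣ :=
  Units.mk0 (Complex.exp (-(Real.pi * Complex.I) / (3 * e))) (Complex.exp_ne_zero _)

theorem unitA_eval (A : ℂˣ) : unitA (LaurentPolynomial.eval₂ (Int.castRingHom ℂ) A) = A := by
  apply Units.ext
  have h := unitA_zpow (LaurentPolynomial.eval₂ (Int.castRingHom ℂ) A) 1
  rw [zpow_one, LaurentPolynomial.eval₂_T, zpow_one] at h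
  exact h

theorem pt_eq (e : ℤ) : ((pt e : ℂˣ) : ℂ) =
    Complex.exp (((-(Real.pi / (3 * e)) : ℝ) : ℂ) * Complex.I) := by
  unfold pt
  rw [Units.val_mk0]
  congr 1
  push_cast
  ring

theorem pt_unit (e : ℤ) : (starRingEnd ℂ) (pt e : ℂ) * (pt e : ℂ) = 1 := by
  rw [pt_eq, ← Complex.exp_conj, ← Complex.exp_add, map_mul, Complex.conj_I, Complex.conj_ofReal]
  rw [show ((-(Real.pi / (3 * e)) : ℝ) : ℂ) * -Complex.I +
    ((-(Real.pi / (3 * e)) : ℝ) : ℂ) * Complex.I = 0 by ring, Complex.exp_zero]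

theorem pt_cos (e : ℤ) : ((2 * Real.cos (2 * (Real.pi / (3 * e))) : ℝ) : ℂ) =
    (pt e : ℂ) ^ 2 + ((pt e : ℂ)⁻¹) ^ 2 := by
  rw [pt_eq, ← Complex.exp_neg, ← Complex.exp_nat_mul, ← Complex.exp_nat_mul]
  push_cast
  rw [Complex.two_cos]
  rw [add_comm]
  congr 1 <;> congr 1 <;> ring

theorem pt_pow {e : ℤ} (he : e ≠ 0) : (((pt e) ^ e : ℂˣ) : ℂ) = ⟨1 / 2, -(√3 / 2)⟩ := by
  push_cast
  rw [pt_eq, ← Complex.exp_int_mul]
  have h1 : (e : ℂ) * (((-(Real.pi / (3 * e)) : ℝ) : ℂ) * Complex.I) =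
      ((-(Real.pi / 3) : ℝ) : ℂ) * Complex.I := by
    have : (e : ℂ) ≠ 0 := by exact_mod_cast he
    push_cast
    field_simp
  rw [h1]
  apply Complex.ext
  · rw [Complex.exp_ofReal_mul_I_re, Real.cos_neg, Real.cos_pi_div_three]
  · rw [Complex.exp_ofReal_mul_I_im, Real.sin_neg, Real.sin_pi_div_three]

theorem cos_bound {e : ℤ} (he : 7 ≤ |e|) : 191 / 100 ≤ 2 * Real.cos (2 * (Real.pi / (3 * e))) := by
  have h1 := Real.one_sub_sq_div_two_le_cos (x := 2 * (Real.pi / (3 * e)))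
  have h2 : (49 : ℝ) ≤ (e : ℝ) ^ 2 := by
    have h3 : (7 : ℝ) ≤ |(e : ℝ)| := by exact_mod_cast he
    rw [← sq_abs]
    nlinarith
  have h4 : (2 * (Real.pi / (3 * e))) ^ 2 ≤ 4 * (3.1416 : ℝ) ^ 2 / (9 * 49) := by
    rw [mul_pow, div_pow, mul_pow]
    have h5 : Real.pi ^ 2 ≤ (3.1416 : ℝ) ^ 2 := by
      have := Real.pi_lt_d4
      have := Real.pi_pos
      gcongr
    have h6 : (0 : ℝ) < 3 ^ 2 * (e : ℝ) ^ 2 := by nlinarith
    rw [show (2 : ℝ) ^ 2 * (Real.pi ^ 2 / (3 ^ 2 * (e : ℝ) ^ 2)) =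
      4 * Real.pi ^ 2 / (9 * (e : ℝ) ^ 2) by ring]
    gcongr
  nlinarith

/-- Closures of words on four strands with odd exponent sum at least seven in absolute value. -/
theorem eval_ne_one [NeZero N] {w : ZMod N → Letter 3} (hw : ∀ t, (w t).kind ≠ .turn)
    (hodd : Odd (expsum w)) (h7 : 7 ≤ |expsum w|) {o : Pt N 3 → ℤˣ}
    (ho : writhe w o = expsum w) :
    LaurentPolynomial.eval₂ (Int.castRingHom ℂ) (pt (expsum w)) (normalized w o) ≠ 1 := by
  have he : expsum w ≠ 0 := by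
    rintro h
    rw [h] at h7
    norm_num at h7
  apply value_ne_one hw hodd _ _ (cos_bound h7) _ _ ho
  · rw [unitA_eval]
    exact pt_unit _
  · rw [unitA_eval]
    exact pt_cos _
  · rw [unitA_eval]
    exact pt_pow he

theorem knot_bound [NeZero N] {w : ZMod N → Letter 3} (hw : ∀ t, (w t).kind ≠ .turn)
    {o : Pt N 3 → ℤˣ} (hK : IsKnot w) (ho : IsOrientation w o) (h1 : normalized w o = 1) :
    |expsum w| ≤ 5 := by
  by_contra hc
  push Not at hc
  have hN := odd_letters hw hK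
  obtain ⟨k, hk⟩ := expsum_parity hw
  have hodd : Odd (expsum w) := by
    obtain ⟨j, hj⟩ := hN
    exact ⟨j + k, by rw [hk, hj]; push_cast; ring⟩
  have h7 : 7 ≤ |expsum w| := by
    obtain ⟨j, hj⟩ := hodd
    rcases abs_cases (expsum w) with ⟨h2, _⟩ | ⟨h2, _⟩ <;> rw [h2] at hc ⊢ <;> omega
  apply eval_ne_one hw hodd h7 (writhe_knot hw hK ho)
  rw [h1, map_one]

end Pool.Agent.B4
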