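import Mathlib

/-!
# Matrices which preserve a positive definite Hermitian form

Traces and determinants of complex matrices of size two and three all of whose eigenvalues have
absolute value one.
-/

namespace Pool.Agent.B4

open Matrix

variable {n : ℕ}

/-- A root of the characteristic polynomial of a matrix which preserves a positive definite form
has absolute value one. -/
theorem norm_root {G M : Matrix (Fin n) (Fin n) ℂ} (hG : ∀ v : Fin n → ℂ, v ≠ 0 →
    star v ⬝ᵥ (G *ᵥ v) ≠ 0) (hM : Mᴴ * G * M = G) {x : ℂ} (hx : x ∈ M.charpoly.roots) :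
    (starRingEnd ℂ) x * x = 1 := by
  classical
  have h0 : M.charpoly.IsRoot x := (Polynomial.mem_roots'.mp hx).2
  have h1 : (Matrix.scalar (Fin n) x - M).det = 0 := by
    have := h0
    rw [Polynomial.IsRoot.def, Matrix.eval_charpoly] at this
    exact this
  obtain ⟨v, hv, hv2⟩ := Matrix.exists_mulVec_eq_zero_iff.mpr h1
  have h2 : M *ᵥ v = x • v := by
    rw [Matrix.sub_mulVec, sub_eq_zero] at hv2
    rw [← hv2]
    ext i
    simp [Matrix.scalar_apply, Matrix.mulVec_diagonal]
  have h3 : star v ⬝ᵥ (G *ᵥ v) = (starRingEnd ℂ) x * x * (star v ⬝ᵥ (G *ᵥ v)) := by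
    conv_lhs => rw [← hM]
    rw [← Matrix.mulVec_mulVec, ← Matrix.mulVec_mulVec, h2, Matrix.dotProduct_mulVec,
      ← Matrix.star_mulVec, h2, Matrix.mulVec_smul, star_smul, smul_dotProduct, dotProduct_smul]
    simp only [smul_eq_mul]
    rw [← mul_assoc]
    rfl
  have h4 := hG v hv
  exact mul_right_cancel₀ h4 (by rw [one_mul]; exact h3.symm)

theorem disc_identity {p q r : ℂ} (hp : (starRingEnd ℂ) p * p = 1)
    (hq : (starRingEnd ℂ) q * q = 1) (hr : (starRingEnd ℂ) r * r = 1) :
    Complex.normSq (p + q + r) ^ 2 - 8 * ((p + q + r) ^ 3 * (starRingEnd ℂ) (p * q * r)).re +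
      18 * Complex.normSq (p + q + r) - 27 =
        -(Complex.normSq (p - q) * Complex.normSq (q - r) * Complex.normSq (r - p)) := by
  have hp0 : p ≠ 0 := by
    rintro rfl
    simp at hp
  have hq0 : q ≠ 0 := by
    rintro rfl
    simp at hq
  have hr0 : r ≠ 0 := by
    rintro rfl
    simp at hr
  have ep : (starRingEnd ℂ) p = p⁻¹ := eq_inv_of_mul_eq_one_left hp
  have eq : (starRingEnd ℂ) q = q⁻¹ := eq_inv_of_mul_eq_one_left hq
  have er : (starRingEnd ℂ) r = r⁻¹ := eq_inv_of_mul_eq_one_left hr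
  have key : ∀ z : ℂ, ((z.re : ℝ) : ℂ) = (z + (starRingEnd ℂ) z) / 2 := by
    intro z
    rw [Complex.add_conj]
    push_cast
    ring
  apply Complex.ofReal_injective
  push_cast
  rw [key]
  simp only [Complex.normSq_eq_conj_mul_self, map_add, map_sub, map_mul, map_pow, ep, eq, er,
    map_inv₀, inv_inv]
  field_simp
  ring

theorem three_roots {G M : Matrix (Fin 3) (Fin 3) ℂ} (hG : ∀ v : Fin 3 → ℂ, v ≠ 0 →
    star v ⬝ᵥ (G *ᵥ v) ≠ 0) (hM : Mᴴ * G * M = G) :
    Complex.normSq M.trace ^ 2 - 8 * (M.trace ^ 3 * (starRingEnd ℂ) M.det).re +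
      18 * Complex.normSq M.trace - 27 ≤ 0 := by
  classical
  have h1 : M.charpoly.roots.card = 3 := by
    rw [← (IsAlgClosed.splits M.charpoly).natDegree_eq_card_roots, Matrix.charpoly_natDegree_eq_dim]
    simp
  obtain ⟨p, q, r, h2⟩ := Multiset.card_eq_three.mp h1
  have hp : (starRingEnd ℂ) p * p = 1 := norm_root hG hM (by rw [h2]; simp)
  have hq : (starRingEnd ℂ) q * q = 1 := norm_root hG hM (by rw [h2]; simp)
  have hr : (starRingEnd ℂ) r * r = 1 := norm_root hG hM (by rw [h2]; simp)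
  have ht : M.trace = p + q + r := by
    rw [Matrix.trace_eq_sum_roots_charpoly, h2]
    simp [add_assoc]
  have hd : M.det = p * q * r := by
    rw [Matrix.det_eq_prod_roots_charpoly, h2]
    simp [mul_assoc]
  rw [ht, hd, disc_identity hp hq hr]
  have := mul_nonneg (mul_nonneg (Complex.normSq_nonneg (p - q)) (Complex.normSq_nonneg (q - r)))
    (Complex.normSq_nonneg (r - p))
  linarith

/-- The trace of a matrix of size two with unimodular eigenvalues is a real number between
`-2` and `2` times a square root of the determinant. -/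
theorem two_roots {G M : Matrix (Fin 2) (Fin 2) ℂ} (hG : ∀ v : Fin 2 → ℂ, v ≠ 0 →
    star v ⬝ᵥ (G *ᵥ v) ≠ 0) (hM : Mᴴ * G * M = G) {ρ : ℂ} (hρ : M.det = ρ ^ 2)
    (hρ1 : (starRingEnd ℂ) ρ * ρ = 1) :
    ∃ y : ℝ, |y| ≤ 2 ∧ M.trace = y * ρ := by
  classical
  have h1 : M.charpoly.roots.card = 2 := by
    rw [← (IsAlgClosed.splits M.charpoly).natDegree_eq_card_roots, Matrix.charpoly_natDegree_eq_dim]
    simp
  obtain ⟨p, q, h2⟩ := Multiset.card_eq_two.mp h1
  have hp : (starRingEnd ℂ) p * p = 1 := norm_root hG hM (by rw [h2]; simp)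
  have hq : (starRingEnd ℂ) q * q = 1 := norm_root hG hM (by rw [h2]; simp)
  have ht : M.trace = p + q := by
    rw [Matrix.trace_eq_sum_roots_charpoly, h2]
    simp
  have hd : M.det = p * q := by
    rw [Matrix.det_eq_prod_roots_charpoly, h2]
    simp
  have hp0 : p ≠ 0 := by
    rintro rfl
    simp at hp
  have hq0 : q ≠ 0 := by
    rintro rfl
    simp at hq
  have hr0 : ρ ≠ 0 := by
    rintro rfl
    simp at hρ1
  have ep : (starRingEnd ℂ) p = p⁻¹ := eq_inv_of_mul_eq_one_left hp
  have eq : (starRingEnd ℂ) q = q⁻¹ := eq_inv_of_mul_eq_one_left hq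
  have er : (starRingEnd ℂ) ρ = ρ⁻¹ := eq_inv_of_mul_eq_one_left hρ1
  have hpq : p * q = ρ ^ 2 := by rw [← hd, hρ]
  have hc : (starRingEnd ℂ) ((p + q) / ρ) = (p + q) / ρ := by
    rw [map_div₀, map_add, ep, eq, er]
    field_simp
    rw [hpq]
    ring
  obtain ⟨y, hy⟩ := Complex.conj_eq_iff_real.mp hc
  refine ⟨y, ?_, ?_⟩
  · have h5 : ‖(y : ℂ)‖ ≤ 2 := by
      rw [← hy, norm_div]
      have n1 : ∀ z : ℂ, (starRingEnd ℂ) z * z = 1 → ‖z‖ = 1 := by
        intro z hz
        have h6 : Complex.normSq z = 1 := by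
          apply Complex.ofReal_injective
          rw [Complex.normSq_eq_conj_mul_self, hz]
          simp
        rw [Complex.normSq_eq_norm_sq] at h6
        nlinarith [norm_nonneg z]
      rw [n1 ρ hρ1, div_one]
      calc ‖p + q‖ ≤ ‖p‖ + ‖q‖ := norm_add_le _ _
        _ = 2 := by rw [n1 p hp, n1 q hq]; norm_num
    simpa using h5
  · rw [ht, ← hy]
    field_simp

end Pool.Agent.B4
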