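import Pool.Agent.B4.Forms
import Pool.Agent.Per.Count

/-!
# The trace of the vertex model on four strands
-/

namespace Pool.Agent.B4

open Matrix Pool.Agent.Per

section Vertex

variable (A : ℂˣ)

/-- The closure of a word of turnbacks. -/
noncomputable def cl (n : ℕ) (u : List (Fin n)) : ℂ :=
  Matrix.trace (twist (-A ^ 2) n * prodM A u)

theorem loopv_eq : loopv A = -(A : ℂ) ^ 2 - ((A : ℂ)⁻¹) ^ 2 := by
  unfold loopv
  push_cast
  rw [_root_.zpow_neg, inv_pow]
  norm_cast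

theorem z_add : (((-A ^ 2 : ℂˣ) : ℂ) + (((-A ^ 2 : ℂˣ)⁻¹ : ℂˣ) : ℂ)) = loopv A := by
  rw [loopv_eq]
  push_cast
  rw [inv_neg, inv_pow]
  ring

theorem cl_cast (n : ℕ) (u : List (Fin n)) :
    cl A (n + 1) (u.map Fin.castSucc) = loopv A * cl A n u := by
  unfold cl
  rw [(markov ℂ A (-A ^ 2) n).1 u, z_add]

theorem cl_last (n : ℕ) (u v : List (Fin n)) :
    cl A (n + 1) (u.map Fin.castSucc ++ Fin.last n :: v.map Fin.castSucc) =
      cl A n (v ++ u) := by
  have h := (markov ℂ A (-A ^ 2) n).2 rfl u v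
  unfold cl
  rw [← h]
  congr 2
  unfold prodM
  rw [List.map_append, List.prod_append, List.map_cons, List.prod_cons, mul_assoc]

theorem cl_zero : cl A 0 [] = loopv A := by
  unfold cl prodM
  rw [List.map_nil, List.prod_nil, mul_one, ← z_add]
  unfold twist
  rw [Matrix.trace_diagonal]
  have h1 : ∀ f : Spin 0 → ℂ, ∑ σ, f σ = f (fun _ => 1) + f (fun _ => -1) := by
    intro f
    rw [← (Equiv.funUnique (Fin 1) ℤˣ).symm.sum_comp f, mk_sum_units]
    rfl
  rw [h1]
  unfold spin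
  simp

theorem cl_nil (n : ℕ) : cl A n [] = loopv A ^ (n + 1) := by
  induction n with
  | zero => rw [cl_zero, zero_add, pow_one]
  | succ n ih =>
    have h := cl_cast A n []
    rw [List.map_nil] at h
    rw [h, ih]
    ring

theorem cl_sq (n : ℕ) (a : Fin n) (u v : List (Fin n)) :
    cl A n (u ++ a :: a :: v) = loopv A * cl A n (u ++ a :: v) := by
  unfold cl prodM
  simp only [List.map_append, List.map_cons, List.prod_append, List.prod_cons]
  have h1 := (tl ℂ A n).1 a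
  rw [← mul_assoc (turnM A a) (turnM A a), h1, smul_mul_assoc, mul_smul_comm, mul_smul_comm,
    Matrix.trace_smul, smul_eq_mul]

theorem cl1_0 : cl A 1 [0] = loopv A := by
  have h := cl_last A 0 [] []
  simpa [cl_nil] using h

theorem cl2_0 : cl A 2 [0] = loopv A ^ 2 := by
  have h := cl_cast A 1 [0]
  rw [cl1_0] at h
  rw [sq]
  exact h

theorem cl2_1 : cl A 2 [1] = loopv A ^ 2 := by
  have h := cl_last A 1 [] []
  rw [List.append_nil, cl_nil] at h
  exact h

theorem cl2_01 : cl A 2 [0, 1] = loopv A := by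
  have h := cl_last A 1 [0] []
  rw [List.nil_append, cl1_0] at h
  exact h

theorem cl2_10 : cl A 2 [1, 0] = loopv A := by
  have h := cl_last A 1 [] [0]
  rw [List.append_nil, cl1_0] at h
  exact h

theorem cl2_110 : cl A 2 [1, 1, 0] = loopv A ^ 2 := by
  have h := cl_sq A 2 1 [] [0]
  rw [List.nil_append, List.nil_append, cl2_10, ← sq] at h
  exact h

/-- The values of the closures of the fourteen words. -/
def tab (d : ℂ) : Fin 14 → ℂ :=
  ![d ^ 4, d ^ 3, d ^ 3, d ^ 3, d ^ 2, d ^ 2, d ^ 2, d ^ 2, d ^ 2, d, d, d, d, d ^ 2]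

theorem cl3 : cl A 3 [] = loopv A ^ 4 ∧ cl A 3 [0] = loopv A ^ 3 ∧ cl A 3 [1] = loopv A ^ 3 ∧
    cl A 3 [2] = loopv A ^ 3 ∧ cl A 3 [0, 1] = loopv A ^ 2 ∧ cl A 3 [1, 0] = loopv A ^ 2 ∧
    cl A 3 [1, 2] = loopv A ^ 2 ∧ cl A 3 [2, 1] = loopv A ^ 2 ∧ cl A 3 [0, 2] = loopv A ^ 2 ∧
    cl A 3 [0, 1, 2] = loopv A ∧ cl A 3 [2, 1, 0] = loopv A ∧ cl A 3 [0, 2, 1] = loopv A ∧
    cl A 3 [1, 0, 2] = loopv A ∧ cl A 3 [1, 0, 2, 1] = loopv A ^ 2 := by
  refine ⟨?_, ?_, ?_, ?_, ?_, ?_, ?_, ?_, ?_, ?_, ?_, ?_, ?_, ?_⟩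
  · exact cl_nil A 3
  · have h := cl_cast A 2 [0]
    rw [cl2_0, ← pow_succ'] at h
    exact h
  · have h := cl_cast A 2 [1]
    rw [cl2_1, ← pow_succ'] at h
    exact h
  · have h := cl_last A 2 [] []
    rw [List.append_nil, cl_nil] at h
    exact h
  · have h := cl_cast A 2 [0, 1]
    rw [cl2_01, ← sq] at h
    exact h
  · have h := cl_cast A 2 [1, 0]
    rw [cl2_10, ← sq] at h
    exact h
  · have h := cl_last A 2 [1] []
    rw [List.nil_append, cl2_1] at h
    exact h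
  · have h := cl_last A 2 [] [1]
    rw [List.append_nil, cl2_1] at h
    exact h
  · have h := cl_last A 2 [0] []
    rw [List.nil_append, cl2_0] at h
    exact h
  · have h := cl_last A 2 [0, 1] []
    rw [List.nil_append, cl2_01] at h
    exact h
  · have h := cl_last A 2 [] [1, 0]
    rw [List.append_nil, cl2_10] at h
    exact h
  · have h := cl_last A 2 [0] [1]
    rw [show ([1] : List (Fin 2)) ++ [0] = [1, 0] from rfl, cl2_10] at h
    exact h
  · have h := cl_last A 2 [1, 0] []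
    rw [List.nil_append, cl2_10] at h
    exact h
  · have h := cl_last A 2 [1, 0] [1]
    rw [show ([1] : List (Fin 2)) ++ [1, 0] = [1, 1, 0] from rfl, cl2_110] at h
    exact h

theorem tw_wd (i : Fin 14) : Matrix.trace (twist (-A ^ 2) 3 *
    wd (turnM A 0) (turnM A 1) (turnM A 2) i) = tab (loopv A) i := by
  obtain ⟨h0, h1, h2, h3, h4, h5, h6, h7, h8, h9, h10, h11, h12, h13⟩ := cl3 A
  simp only [cl, prodM, List.map_nil, List.map_cons, List.prod_nil, List.prod_cons, mul_one]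
    at h0 h1 h2 h3 h4 h5 h6 h7 h8 h9 h10 h11 h12 h13
  match i with
  | 0 =>
    show Matrix.trace (twist (-A ^ 2) 3 * 1) = loopv A ^ 4
    rw [mul_one]
    exact h0
  | 1 =>
    show Matrix.trace (twist (-A ^ 2) 3 * (turnM A 0)) = loopv A ^ 3
    exact h1
  | 2 =>
    show Matrix.trace (twist (-A ^ 2) 3 * (turnM A 1)) = loopv A ^ 3
    exact h2
  | 3 =>
    show Matrix.trace (twist (-A ^ 2) 3 * (turnM A 2)) = loopv A ^ 3
    exact h3
  | 4 =>
    show Matrix.trace (twist (-A ^ 2) 3 * (turnM A 0 * turnM A 1)) = loopv A ^ 2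
    exact h4
  | 5 =>
    show Matrix.trace (twist (-A ^ 2) 3 * (turnM A 1 * turnM A 0)) = loopv A ^ 2
    exact h5
  | 6 =>
    show Matrix.trace (twist (-A ^ 2) 3 * (turnM A 1 * turnM A 2)) = loopv A ^ 2
    exact h6
  | 7 =>
    show Matrix.trace (twist (-A ^ 2) 3 * (turnM A 2 * turnM A 1)) = loopv A ^ 2
    exact h7
  | 8 =>
    show Matrix.trace (twist (-A ^ 2) 3 * (turnM A 0 * turnM A 2)) = loopv A ^ 2
    exact h8
  | 9 =>
    show Matrix.trace (twist (-A ^ 2) 3 * (turnM A 0 * (turnM A 1 * turnM A 2))) = loopv A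
    exact h9
  | 10 =>
    show Matrix.trace (twist (-A ^ 2) 3 * (turnM A 2 * (turnM A 1 * turnM A 0))) = loopv A
    exact h10
  | 11 =>
    show Matrix.trace (twist (-A ^ 2) 3 * (turnM A 0 * (turnM A 2 * turnM A 1))) = loopv A
    exact h11
  | 12 =>
    show Matrix.trace (twist (-A ^ 2) 3 * (turnM A 1 * (turnM A 0 * turnM A 2))) = loopv A
    exact h12
  | 13 =>
    show Matrix.trace (twist (-A ^ 2) 3 * (turnM A 1 * (turnM A 0 * (turnM A 2 * turnM A 1)))) = loopv A ^ 2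
    exact h13

end Vertex

end Pool.Agent.B4
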