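import Pool.Agent.B4.Decomp

/-!
# Braid words on four strands
-/

namespace Pool.Agent.B4

open Matrix Pool.Agent.Per LaurentPolynomial Pool.Agent.Helper1.PK

variable {N : ℕ}

/-- The exponent sum of a word. -/
def expsum [NeZero N] {n : ℕ} (w : ZMod N → Letter n) : ℤ := ∑ t, (w t).kind.sgn

section Lett

variable (φ : ℤ[T;T⁻¹] →+* ℂ)

theorem lett_eq {S : Type*} [Ring S] [Algebra ℂ S] (e : Fin 3 → S) {l : Letter 3}
    (hl : l.kind ≠ .turn) :
    lett φ e l = (((unitA φ) ^ l.kind.sgn : ℂˣ) : ℂ) • (1 : S) +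
      ((((unitA φ) ^ l.kind.sgn : ℂˣ) : ℂ))⁻¹ • e l.place := by
  obtain ⟨a, k⟩ := l
  cases k
  · unfold lett
    show φ (T 1) • (1 : S) + φ (T (-1)) • e a = _
    rw [← unitA_zpow, ← unitA_zpow]
    simp [Kind.sgn]
  · unfold lett
    show φ (T (-1)) • (1 : S) + φ (T 1) • e a = _
    rw [← unitA_zpow, ← unitA_zpow]
    simp [Kind.sgn]
  · exact absurd rfl hl

theorem loop_rel {k : Kind} (hk : k ≠ .turn) :
    (((unitA φ) ^ k.sgn : ℂˣ) : ℂ) ^ 2 + ((((unitA φ) ^ k.sgn : ℂˣ) : ℂ)⁻¹) ^ 2 +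
      loopv (unitA φ) = 0 := by
  rw [loopv_eq]
  cases k
  · simp [Kind.sgn]
  · simp only [Kind.sgn, _root_.zpow_neg, zpow_one, Units.val_inv_eq_inv_val, inv_inv]
    ring
  · exact absurd rfl hk

variable (hA : (starRingEnd ℂ) (unitA φ : ℂ) * (unitA φ : ℂ) = 1)
include hA

theorem unit_rel (k : ℤ) :
    (starRingEnd ℂ) (((unitA φ) ^ k : ℂˣ) : ℂ) * (((unitA φ) ^ k : ℂˣ) : ℂ) = 1 := by
  push_cast
  rw [map_zpow₀, ← mul_zpow, hA, _root_.one_zpow]

theorem loop_real : (starRingEnd ℂ) (loopv (unitA φ)) = loopv (unitA φ) := by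
  have e1 : (starRingEnd ℂ) (unitA φ : ℂ) = (unitA φ : ℂ)⁻¹ := eq_inv_of_mul_eq_one_left hA
  rw [loopv_eq, map_sub, map_neg, map_pow, map_pow, map_inv₀, e1, inv_inv]
  ring

theorem lett_isom3 {l : Letter 3} (hl : l.kind ≠ .turn) :
    (lett φ (EE (loopv (unitA φ))) l)ᴴ * G3 (loopv (unitA φ)) *
      lett φ (EE (loopv (unitA φ))) l = G3 (loopv (unitA φ)) := by
  rw [lett_eq φ _ hl]
  exact isom_of (EE_adj (loop_real φ hA) _) (EE_sq _ _) (unit_rel φ hA _) (loop_rel φ hl)

theorem lett_isom2 {l : Letter 3} (hl : l.kind ≠ .turn) :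
    (lett φ (FF (loopv (unitA φ))) l)ᴴ * G2 (loopv (unitA φ)) *
      lett φ (FF (loopv (unitA φ))) l = G2 (loopv (unitA φ)) := by
  rw [lett_eq φ _ hl]
  exact isom_of (FF_adj (loop_real φ hA) _) (FF_sq _ _) (unit_rel φ hA _) (loop_rel φ hl)

end Lett

theorem list_isom {m : ℕ} {G : Matrix (Fin m) (Fin m) ℂ} (L : List (Matrix (Fin m) (Fin m) ℂ))
    (hL : ∀ M ∈ L, Mᴴ * G * M = G) : L.prodᴴ * G * L.prod = G := by
  induction L with
  | nil => simp
  | cons M L ih =>
    have h1 := hL M (by simp)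
    have h2 := ih fun M' hM' => hL M' (by simp [hM'])
    rw [List.prod_cons, Matrix.conjTranspose_mul]
    calc L.prodᴴ * Mᴴ * G * (M * L.prod) = L.prodᴴ * (Mᴴ * G * M) * L.prod := by
          simp only [mul_assoc]
      _ = G := by rw [h1, h2]

section Word

variable (φ : ℤ[T;T⁻¹] →+* ℂ) {w : ZMod N → Letter 3} (hw : ∀ t, (w t).kind ≠ .turn)
include hw

theorem word_isom3 (hA : (starRingEnd ℂ) (unitA φ : ℂ) * (unitA φ : ℂ) = 1) :
    (word φ (EE (loopv (unitA φ))) w)ᴴ * G3 (loopv (unitA φ)) *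
      word φ (EE (loopv (unitA φ))) w = G3 (loopv (unitA φ)) := by
  unfold word
  apply list_isom
  intro M hM
  obtain ⟨i, _, rfl⟩ := List.mem_map.mp hM
  exact lett_isom3 φ hA (hw _)

theorem word_isom2 (hA : (starRingEnd ℂ) (unitA φ : ℂ) * (unitA φ : ℂ) = 1) :
    (word φ (FF (loopv (unitA φ))) w)ᴴ * G2 (loopv (unitA φ)) *
      word φ (FF (loopv (unitA φ))) w = G2 (loopv (unitA φ)) := by
  unfold word
  apply list_isom
  intro M hM
  obtain ⟨i, _, rfl⟩ := List.mem_map.mp hM
  exact lett_isom2 φ hA (hw _)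

theorem lett_zero (t : ZMod N) : lett φ (fun _ => (0 : ℂ)) (w t) =
    (((unitA φ) ^ (w t).kind.sgn : ℂˣ) : ℂ) := by
  rw [lett_eq φ _ (hw t)]
  simp

theorem word_det3 : (word φ (EE (loopv (unitA φ))) w).det =
    (-1) ^ N * (word φ (fun _ => (0 : ℂ)) w)⁻¹ := by
  have key : ∀ L : List ℕ,
      ((L.map fun i : ℕ => lett φ (EE (loopv (unitA φ))) (w (i : ZMod N))).prod).det =
        (-1) ^ L.length * ((L.map fun i : ℕ => lett φ (fun _ => (0 : ℂ)) (w (i : ZMod N))).prod)⁻¹ := by
    intro L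
    induction L with
    | nil => simp
    | cons i L ih =>
      rw [List.map_cons, List.prod_cons, List.map_cons, List.prod_cons, Matrix.det_mul, ih,
        lett_zero φ hw, lett_eq φ _ (hw _),
        EE_det (Units.ne_zero _) (loop_rel φ (hw _)), List.length_cons, pow_succ, mul_inv]
      ring
  have h := key (List.range N)
  rw [List.length_range] at h
  exact h

theorem word_det2 : (word φ (FF (loopv (unitA φ))) w).det =
    (-1) ^ N * ((word φ (fun _ => (0 : ℂ)) w)⁻¹) ^ 2 := by
  have key : ∀ L : List ℕ,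
      ((L.map fun i : ℕ => lett φ (FF (loopv (unitA φ))) (w (i : ZMod N))).prod).det =
        (-1) ^ L.length *
          (((L.map fun i : ℕ => lett φ (fun _ => (0 : ℂ)) (w (i : ZMod N))).prod)⁻¹) ^ 2 := by
    intro L
    induction L with
    | nil => simp
    | cons i L ih =>
      rw [List.map_cons, List.prod_cons, List.map_cons, List.prod_cons, Matrix.det_mul, ih,
        lett_zero φ hw, lett_eq φ _ (hw _),
        FF_det (Units.ne_zero _) (loop_rel φ (hw _)), List.length_cons, pow_succ, mul_inv]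
      ring
  have h := key (List.range N)
  rw [List.length_range] at h
  exact h

theorem word_zero [NeZero N] : word φ (fun _ => (0 : ℂ)) w =
    (((unitA φ) ^ expsum w : ℂˣ) : ℂ) := by
  have key : ∀ L : List ℕ, (L.map fun i : ℕ => lett φ (fun _ => (0 : ℂ)) (w (i : ZMod N))).prod =
      (((unitA φ) ^ (L.map fun i : ℕ => (w (i : ZMod N)).kind.sgn).sum : ℂˣ) : ℂ) := by
    intro L
    induction L with
    | nil => simp
    | cons i L ih =>
      rw [List.map_cons, List.prod_cons, List.map_cons, List.sum_cons, ih, lett_zero φ hw,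
        _root_.zpow_add, Units.val_mul]
  have h1 : ((List.range N).map fun i : ℕ => (w (i : ZMod N)).kind.sgn).sum = expsum w := by
    unfold expsum
    rw [← List.sum_toFinset _ (List.nodup_range)]
    refine Finset.sum_nbij' (fun i : ℕ => (i : ZMod N)) (fun t : ZMod N => t.val) ?_ ?_ ?_ ?_ ?_
    · intro i _
      exact Finset.mem_univ _
    · intro t _
      simpa using ZMod.val_lt t
    · intro i hi
      have hi' : i < N := by simpa using hi
      exact ZMod.val_natCast_of_lt hi'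
    · intro t _
      exact ZMod.natCast_zmod_val t
    · intro i _
      rfl
  unfold word
  rw [key, h1]

end Word

/-- The exponent sum has the parity of the number of letters. -/
theorem expsum_parity [NeZero N] {n : ℕ} {w : ZMod N → Letter n} (hw : ∀ t, (w t).kind ≠ .turn) :
    ∃ k : ℤ, expsum w = N + 2 * k := by
  unfold expsum
  have h1 : ∀ t, ∃ k : ℤ, (w t).kind.sgn = 1 + 2 * k := by
    intro t
    have := hw t
    cases h : (w t).kind
    · exact ⟨0, rfl⟩
    · exact ⟨-1, rfl⟩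
    · exact absurd h this
  choose k hk using h1
  refine ⟨∑ t, k t, ?_⟩
  rw [Finset.mul_sum]
  have h2 : (N : ℤ) = ∑ t : ZMod N, (1 : ℤ) := by simp [ZMod.card]
  rw [h2, ← Finset.sum_add_distrib]
  exact Finset.sum_congr rfl fun t _ => hk t

/-- All strands go up. -/
theorem isOrientation_up {n : ℕ} {w : ZMod N → Letter n} (hw : ∀ t, (w t).kind ≠ .turn) :
    IsOrientation w (fun _ => 1) := by
  intro t e
  have := hw t
  unfold flow
  cases h : (w t).kind
  · obtain ⟨b, j⟩ := e
    cases b <;> simp [Kind.join, partner]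
  · obtain ⟨b, j⟩ := e
    cases b <;> simp [Kind.join, partner]
  · exact absurd h this

theorem writhe_up [NeZero N] {n : ℕ} (w : ZMod N → Letter n) :
    writhe w (fun _ => 1) = expsum w := by
  unfold writhe expsum
  exact Finset.sum_congr rfl fun t _ => by simp

theorem writhe_knot [NeZero N] {n : ℕ} {w : ZMod N → Letter n} (hw : ∀ t, (w t).kind ≠ .turn)
    (hK : IsKnot w) {o : Pt N n → ℤˣ} (ho : IsOrientation w o) : writhe w o = expsum w := by
  rcases orientation_unique hK ho (isOrientation_up hw) with h | h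
  · rw [h]
    exact writhe_up w
  · rw [h]
    unfold writhe expsum
    exact Finset.sum_congr rfl fun t _ => by simp

theorem odd_letters [NeZero N] {w : ZMod N → Letter 3} (hw : ∀ t, (w t).kind ≠ .turn)
    (hK : IsKnot w) : Odd N := by
  have h := card_crossings w (fun _ => 1) (isOrientation_up hw) hK
  have h1 : (Finset.univ.filter fun t => (w t).kind ≠ .turn ∧ (1 : ℤˣ) = 1) = Finset.univ := by
    ext t
    simp [hw t]
  have h2 : (Finset.univ.filter fun t => (w t).kind = .turn) = ∅ := by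
    ext t
    simp [hw t]
  rw [h1, h2, Finset.card_empty, add_zero, Finset.card_univ, ZMod.card] at h
  by_contra hc
  rw [Nat.not_odd_iff_even] at hc
  rw [hc.neg_one_pow] at h
  exact absurd h (by decide)

end Pool.Agent.B4
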